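import Mathlib
import Pool.Agent.TH176.FB.Hc

/-!
The numerical conditions for all `t ≥ 2` (fat points).
-/

set_option autoImplicit false

namespace Pool.Agent.TH176.FB

namespace J24

/-- Twice the Hilbert function, when all terms are positive. -/
lemma two_Hc (n t l : ℕ) (hl : n * (t - 1) ≤ l + 1) :
    2 * Hc n t l = t ^ n * (2 * (l + 1) - n * (t - 1)) := by
  have h1 : Hc n t l = ∑ d : Fin n → Fin t, (l + 1 - ∑ i, ((Fin.rev (d i) : Fin t) : ℕ)) := by
    unfold Hc
    exact (Equiv.sum_comp (Equiv.piCongrRight fun _ : Fin n => (Fin.revPerm : Equiv.Perm (Fin t)))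
      (fun d : Fin n → Fin t => (l + 1 - ∑ i, (d i : ℕ)))).symm
  have h2 : t ^ n * (2 * (l + 1) - n * (t - 1)) =
      ∑ _d : Fin n → Fin t, (2 * (l + 1) - n * (t - 1)) := by
    rw [Finset.sum_const, Finset.card_univ, Fintype.card_fun, Fintype.card_fin, Fintype.card_fin,
      smul_eq_mul]
  have h3 : 2 * Hc n t l = Hc n t l + ∑ d : Fin n → Fin t,
      (l + 1 - ∑ i, ((Fin.rev (d i) : Fin t) : ℕ)) := by
    rw [← h1]; ring
  rw [h3, h2]
  unfold Hc
  rw [← Finset.sum_add_distrib]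
  refine Finset.sum_congr rfl fun d _ => ?_
  have h4 : (∑ i, (d i : ℕ)) + ∑ i, ((Fin.rev (d i) : Fin t) : ℕ) = n * (t - 1) := by
    rw [← Finset.sum_add_distrib]
    have h5 : ∀ i ∈ (Finset.univ : Finset (Fin n)),
        ((d i : ℕ) + ((Fin.rev (d i) : Fin t) : ℕ)) = t - 1 := by
      intro i _
      rw [Fin.val_rev]
      have := (d i).isLt
      omega
    rw [Finset.sum_congr rfl h5, Finset.sum_const, Finset.card_univ, Fintype.card_fin, smul_eq_mul]
  omega

lemma two_sq_le (n : ℕ) : 2 * (n * n) ≤ 3 ^ n := by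
  rcases Nat.lt_or_ge n 2 with h | h
  · interval_cases n <;> norm_num
  · induction n, h using Nat.le_induction with
    | base => norm_num
    | succ k hk ih => rw [pow_succ]; nlinarith

lemma sq_le_two_pow (n : ℕ) (hn : 4 ≤ n) : n * n ≤ 2 ^ n := by
  induction n, hn using Nat.le_induction with
  | base => norm_num
  | succ k hk ih => rw [pow_succ]; nlinarith

/-- the bound for `q` -/
lemma q_bound (n T q : ℕ) (hT : 1 ≤ T) (h3 : 3 ≤ n * T) (hq : (T + 1) * q ≤ n * T + T - 1) :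
    2 * (n * q) ≤ (T + 1) ^ n := by
  rcases Nat.lt_or_ge T 2 with h | h
  · obtain rfl : T = 1 := by omega
    rw [mul_one] at h3 hq
    norm_num at hq ⊢
    have hq2 : 2 * q ≤ n := hq
    rcases Nat.lt_or_ge n 4 with h4 | h4
    · obtain rfl : n = 3 := by omega
      have : q ≤ 1 := by omega
      norm_num
      omega
    · have h5 := sq_le_two_pow n h4
      have h6 : 2 * (n * q) = n * (2 * q) := by ring
      rw [h6]
      exact (Nat.mul_le_mul_left _ hq2).trans h5
  · have hqn : q ≤ n := by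
      by_contra hcon
      push Not at hcon
      have h5 : (T + 1) * (n + 1) ≤ (T + 1) * q := Nat.mul_le_mul_left _ hcon
      have h6 : (T + 1) * (n + 1) = n * T + T + n + 1 := by ring
      omega
    calc 2 * (n * q) ≤ 2 * (n * n) := Nat.mul_le_mul_left _ (Nat.mul_le_mul_left _ hqn)
      _ ≤ 3 ^ n := two_sq_le n
      _ ≤ (T + 1) ^ n := Nat.pow_le_pow_left (by omega) _

end J24

open J24 in
theorem numR (n t c m : ℕ) (ht : 2 ≤ t) (hc : 2 * c + n + 2 < n * t) (hm : n * t ^ (n + 1) ≤ m) :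
    ∃ i₁ q : ℕ, 1 ≤ q ∧ i₁ + c / t ≤ q ∧ n ≤ t ^ (n + 1) ∧
      (∀ i, i₁ ≤ i → Hc n t (t * i + c) + n * q ≤ t ^ (n + 1) * i) ∧
      (∀ b, m < b + i₁ → t * b ≤ t * m + c →
        (Hc n t (t * m + c - t * b) : ℤ) ≤ (n : ℤ) * ((m : ℤ) + 1 - b - q) + b +
          (((t ^ (n + 1) : ℕ) : ℤ) - n) * ((m - b : ℕ) : ℤ)) := by
  obtain ⟨T, rfl⟩ : ∃ T, t = T + 1 := ⟨t - 1, by omega⟩
  have hT : 1 ≤ T := by omega
  have hcT : 2 * c + 3 ≤ n * T := by
    have : n * (T + 1) = n * T + n := by ring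
    omega
  have hn : 1 ≤ n := by
    rcases Nat.eq_zero_or_pos n with h | h
    · subst h; omega
    · exact h
  -- the two numbers
  obtain ⟨i₁, hi₁⟩ : ∃ i₁, i₁ = (n * T - 1 - c + T) / (T + 1) := ⟨_, rfl⟩
  have hi₁a : (T + 1) * i₁ ≤ n * T - 1 - c + T := by
    rw [hi₁]
    exact Nat.mul_div_le _ _
  have hi₁b : n * T ≤ (T + 1) * i₁ + c + 1 := by
    have h1 : n * T - 1 - c + T < (T + 1) * (i₁ + 1) := by
      rw [hi₁]
      exact Nat.lt_mul_div_succ _ (by omega)
    have h2 : (T + 1) * (i₁ + 1) = (T + 1) * i₁ + T + 1 := by ring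
    omega
  clear hi₁
  have hi₁1 : 1 ≤ i₁ := by
    by_contra h
    have h0 : i₁ = 0 := by omega
    rw [h0] at hi₁b
    omega
  obtain ⟨e, he⟩ : ∃ e, e = c / (T + 1) := ⟨_, rfl⟩
  have hct : (T + 1) * e ≤ c := by
    rw [he]
    exact Nat.mul_div_le _ _
  obtain ⟨q, hq⟩ : ∃ q, q = i₁ + e := ⟨_, rfl⟩
  have hqT : (T + 1) * q ≤ n * T + T - 1 := by
    have h1 : (T + 1) * q = (T + 1) * i₁ + (T + 1) * e := by rw [hq]; ring
    omega
  have hqb : 2 * (n * q) ≤ (T + 1) ^ n := q_bound n T q hT (by omega) hqT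
  -- the value at `c`
  have hHc : 2 * Hc n (T + 1) c + (n + 1) * (T + 1) ^ n ≤ n * (T + 1) ^ (n + 1) := by
    have h1 := Hc_le n (T + 1) c
    have h2 : (T + 1) ^ n * (2 * (c + 1) + (n + 1)) ≤ (T + 1) ^ n * (n * (T + 1)) :=
      Nat.mul_le_mul_left _ (by
        have : n * (T + 1) = n * T + n := by ring
        omega)
    have h3 : (T + 1) ^ n * (2 * (c + 1) + (n + 1)) =
        2 * ((T + 1) ^ n * (c + 1)) + (n + 1) * (T + 1) ^ n := by ring
    have h4 : (T + 1) ^ n * (n * (T + 1)) = n * (T + 1) ^ (n + 1) := by ring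
    omega
  refine ⟨i₁, q, by omega, by rw [hq, he], ?_, ?_, ?_⟩
  · have h1 : n < (T + 1) ^ n := Nat.lt_pow_self (by omega)
    have h2 : (T + 1) ^ n ≤ (T + 1) ^ (n + 1) := Nat.pow_le_pow_right (by omega) (by omega)
    omega
  · intro i hi
    have h0 : (T + 1) * i₁ ≤ (T + 1) * i := Nat.mul_le_mul_left _ hi
    have h3 := two_Hc n (T + 1) ((T + 1) * i + c) (by
      rw [Nat.add_sub_cancel]; omega)
    rw [Nat.add_sub_cancel] at h3
    have h4 : (T + 1) ^ n * (2 * ((T + 1) * i + c + 1) - n * T) + (T + 1) ^ n ≤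
        (T + 1) ^ n * (2 * ((T + 1) * i)) := by
      have h5 : 2 * ((T + 1) * i + c + 1) - n * T + 1 ≤ 2 * ((T + 1) * i) := by
        have : 1 ≤ (T + 1) * i₁ := Nat.mul_pos (by omega) hi₁1
        omega
      calc (T + 1) ^ n * (2 * ((T + 1) * i + c + 1) - n * T) + (T + 1) ^ n
          = (T + 1) ^ n * (2 * ((T + 1) * i + c + 1) - n * T + 1) := by ring
        _ ≤ _ := Nat.mul_le_mul_left _ h5
    have h9 : (T + 1) ^ n * (2 * ((T + 1) * i)) = 2 * ((T + 1) ^ (n + 1) * i) := by ring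
    omega
  · intro b hb hbm
    rcases le_or_gt b m with h | h
    · obtain ⟨i, rfl⟩ := Nat.exists_eq_add_of_le h
      have h1 : (T + 1) * (b + i) + c - (T + 1) * b = c + (T + 1) * i := by
        have : (T + 1) * (b + i) = (T + 1) * b + (T + 1) * i := by ring
        omega
      have h2 : b + i - b = i := by omega
      rw [h1, h2]
      have h3 := Hc_add_mul n (T + 1) c i
      have h4 : (Hc n (T + 1) (c + (T + 1) * i) : ℤ) ≤ (Hc n (T + 1) c : ℤ) +
          (((T + 1) ^ (n + 1) : ℕ) : ℤ) * (i : ℤ) := by exact_mod_cast h3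
      have hiq : i + 1 ≤ q := by omega
      -- `Hc c + n (q - 1) + i ≤ b + i`
      have h5 : Hc n (T + 1) c + n * q ≤ b + n := by
        have h6 : i ≤ n * q := by
          calc i ≤ q := by omega
            _ ≤ n * q := Nat.le_mul_of_pos_left _ hn
        have h7 : (n + 1) * (T + 1) ^ n = n * (T + 1) ^ n + (T + 1) ^ n := by ring
        have h8 : (T + 1) ^ n ≤ n * (T + 1) ^ n := Nat.le_mul_of_pos_left _ hn
        omega
      have h5' : (Hc n (T + 1) c : ℤ) + n * q ≤ b + n := by exact_mod_cast h5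
      push_cast at h4 ⊢
      nlinarith
    · obtain ⟨i, rfl⟩ := Nat.exists_eq_add_of_lt h
      have h2 : m - (m + i + 1) = 0 := by omega
      rw [h2]
      have h3 : Hc n (T + 1) ((T + 1) * m + c - (T + 1) * (m + i + 1)) ≤ Hc n (T + 1) c :=
        Hc_mono n (T + 1) (by
          have : (T + 1) * (m + i + 1) = (T + 1) * m + (T + 1) * (i + 1) := by ring
          omega)
      have h7 : (T + 1) * (i + 1) ≤ c := by
        have : (T + 1) * (m + i + 1) = (T + 1) * m + (T + 1) * (i + 1) := by ring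
        omega
      have h8 : i + 1 ≤ e := by
        rw [he, Nat.le_div_iff_mul_le (by omega)]
        nlinarith
      have hiq : i + 1 ≤ q := by omega
      have h9 : n * (i + 1) ≤ n * q := Nat.mul_le_mul_left _ hiq
      have h5 : Hc n (T + 1) c + n * (i + 1) + n * q ≤ m + n := by
        have h7' : (n + 1) * (T + 1) ^ n = n * (T + 1) ^ n + (T + 1) ^ n := by ring
        have h8' : (T + 1) ^ n ≤ n * (T + 1) ^ n := Nat.le_mul_of_pos_left _ hn
        omega
      have h6 : Hc n (T + 1) ((T + 1) * m + c - (T + 1) * (m + i + 1)) + n * (i + 1) + n * q ≤ m + n := by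
        omega
      have h6' : (Hc n (T + 1) ((T + 1) * m + c - (T + 1) * (m + i + 1)) : ℤ) + n * (i + 1) + n * q ≤
          m + n := by exact_mod_cast h6
      push_cast
      generalize (Hc n (T + 1) ((T + 1) * m + c - (T + 1) * (m + i + 1)) : ℤ) = Z at *
      have hi0 : (0 : ℤ) ≤ i := by positivity
      nlinarith

end Pool.Agent.TH176.FB
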