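import Pool.Agent.TH176.FB.Fat
import Pool.Agent.TH176.FB.J24

/-!
Fat points: the Hilbert function of `t ^ N` general points of large multiplicity `m` in all degrees.
-/

set_option autoImplicit false

namespace Pool.Agent.TH176.FB

open MvPolynomial Finset Pool.Agent.H938R2

theorem fat_all (n t m d : ℕ) (ht : 2 ≤ t) (hm : 1 ≤ m) (hm2 : n * t ^ (n + 1) ≤ m) :
    ForGeneral (n + 2) (t ^ (n + 1)) (fun p =>
      Module.finrank ℂ (forms (n + 2) d (fun _ => m) p) =
        (d + (n + 1)).choose (n + 1) - t ^ (n + 1) * (m + n).choose (n + 1)) := by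
  rcases lt_or_ge d (t * m) with h1 | h1
  · exact fat_low n t m d (by omega) h1
  obtain ⟨c, hc⟩ : ∃ c, d = t * m + c := ⟨d - t * m, by omega⟩
  by_cases h2 : 2 * c + n + 2 < n * t
  · have h4 := fat_window n t m c (by omega) hm (numR n t c m ht h2 hm2)
    rw [← hc] at h4
    exact h4
  · refine fat_indep n t m d ht ?_
    rw [hc]
    have : 2 * t * m = 2 * (t * m) := by ring
    omega

end Pool.Agent.TH176.FB
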