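import Mathlib

/-!
Definitions for the formula of Froeberg for a fixed number of variables: twisted grids of fat points.
-/

set_option autoImplicit false

namespace Pool.Agent.TH176.FB

open MvPolynomial

/-- The polynomial `f (p + x)`. -/
noncomputable def shift {K : Type} [Field K] {σ : Type} (p : σ → K) :
    MvPolynomial σ K →ₐ[K] MvPolynomial σ K :=
  aeval fun i => X i + C (p i)

/-- There are `s ^ |σ|` points and an ideal `I` of polynomials vanishing at these points such that
modulo each power `I ^ (m + 1)` each polynomial is congruent to a polynomial of degree at most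
`s * m + κ * (s - 1)`. -/
def Good (K : Type) [Field K] (σ : Type) [Fintype σ] (s κ : ℕ) : Prop :=
  ∃ (Z : Finset (σ → K)) (I : Ideal (MvPolynomial σ K)), Z.card = s ^ Fintype.card σ ∧
    (∀ p ∈ Z, ∀ f ∈ I, eval p f = 0) ∧
    ∀ (m : ℕ) (f : MvPolynomial σ K), ∃ g ∈ I ^ (m + 1),
      (f - g).totalDegree ≤ s * m + κ * (s - 1)

/-- Arbitrary Taylor coefficients of order at most `e` at the points of `Z` are attained by
polynomials of degree at most `D`. -/
def Interp {K : Type} [Field K] {σ : Type} (Z : Finset (σ → K)) (e D : ℕ) : Prop :=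
  ∀ c : (σ → K) → (σ →₀ ℕ) → K, ∃ f : MvPolynomial σ K, f.totalDegree ≤ D ∧
    ∀ p ∈ Z, ∀ α : σ →₀ ℕ, α.degree ≤ e → coeff α (shift p f) = c p α

/-- Only the zero polynomial of degree at most `D` has all its Taylor coefficients of order at
most `e` at the points of `Z` equal to zero. -/
def Vanish {K : Type} [Field K] {σ : Type} (Z : Finset (σ → K)) (e D : ℕ) : Prop :=
  ∀ f : MvPolynomial σ K, f.totalDegree ≤ D →
    (∀ p ∈ Z, ∀ α : σ →₀ ℕ, α.degree ≤ e → coeff α (shift p f) = 0) → f = 0

/-- The linear form `x_0 + p_0 x_1 + ⋯ + p_(N-1) x_N`. -/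
noncomputable def lin {K : Type} [Field K] {N : ℕ} (p : Fin N → K) :
    MvPolynomial (Fin (N + 1)) K :=
  X 0 + ∑ i : Fin N, C (p i) * X i.succ

/-- The form `l_p ^ (D - |α|) * x' ^ α` of degree `D`. -/
noncomputable def T {K : Type} [Field K] {N : ℕ} (D : ℕ) (p : Fin N → K) (α : Fin N →₀ ℕ) :
    MvPolynomial (Fin (N + 1)) K :=
  lin p ^ (D - α.degree) * monomial (Finsupp.cons 0 α) 1

/-- The weight of a monomial in three variables of weights `1, 1, 2`. -/
def wt (u : Fin 3 →₀ ℕ) : ℕ := u 0 + u 1 + 2 * u 2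

end Pool.Agent.TH176.FB
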