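import Pool.Agent.TH206.Fro.Final
import Pool.Agent.TH176.FB.Defs

/-!
The formula of Froeberg for a fixed number of variables: semicontinuity and maximal rank.
-/

set_option autoImplicit false

namespace Pool.Agent.TH176.FB

open MvPolynomial Finset Pool.Agent.TH206.Fro

/-- The degree `k` part of the ideal generated by the forms. -/
noncomputable def ik {K : Type} [Field K] {n r : ℕ} (f : Fin r → MvPolynomial (Fin n) K) (k : ℕ) :
    Submodule K (MvPolynomial (Fin n) K) :=
  Submodule.restrictScalars K (Ideal.span (Set.range f)) ⊓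
    MvPolynomial.homogeneousSubmodule (Fin n) K k

instance {K : Type} [Field K] {n k : ℕ} :
    FiniteDimensional K (homogeneousSubmodule (Fin n) K k) := by
  classical
  have h : Function.Injective ((cf (F := K) (n := n) k).domRestrict
      (homogeneousSubmodule (Fin n) K k)) := by
    rw [← LinearMap.ker_eq_bot, LinearMap.ker_eq_bot']
    intro x hx
    exact Subtype.ext (cf_inj x.2 hx)
  exact FiniteDimensional.of_injective _ h

/-- Semicontinuity of the dimension of the ideal in degree `k`. -/
theorem spec (K : Type) [Field K] (n r k : ℕ) (d : Fin r → ℕ)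
    (f0 : Fin r → MvPolynomial (Fin n) K) (h0 : ∀ i, (f0 i).IsHomogeneous (d i)) :
    ∃ P : MvPolynomial (Io n d) K, P ≠ 0 ∧
      ∀ f : Fin r → MvPolynomial (Fin n) K, (∀ i, (f i).IsHomogeneous (d i)) →
        MvPolynomial.eval (fun s : Io n d => (f s.1).coeff s.2.1) P ≠ 0 →
        Module.finrank K (ik f0 k) ≤ Module.finrank K (ik f k) := by
  classical
  have hev : ∀ (ρ : ℕ) (f : Fin ρ → Ro n k d) (g : Fin ρ → Dg n k) (t : Io n d → K),
      MvPolynomial.eval t ((MX n k d K).submatrix f g).det =
        ((Mx d k t).submatrix f g).det := by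
    intro ρ f g t
    rw [RingHom.map_det]
    congr 1
    ext i j
    simp only [RingHom.mapMatrix_apply, Matrix.map_apply, Matrix.submatrix_apply]
    unfold MX Mx
    split_ifs with h
    · exact MvPolynomial.eval_X _
    · exact map_zero _
  obtain ⟨f, g, hfg⟩ := exists_minor (Mx d k (fun s : Io n d => (f0 s.1).coeff s.2.1)) _ le_rfl
  refine ⟨((MX n k d K).submatrix f g).det, fun h => hfg ?_, fun F hF hFP => ?_⟩
  · rw [← hev, h, map_zero]
  · unfold ik
    rw [hilb_thm n k r d K f0 h0, hilb_thm n k r d K F hF]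
    rw [hev] at hFP
    exact rank_ge_of_minor _ _ f g hFP

theorem finrank_ik_le (K : Type) [Field K] (n r k : ℕ) (d : Fin r → ℕ)
    (f : Fin r → MvPolynomial (Fin n) K) (hf : ∀ i, (f i).IsHomogeneous (d i)) :
    Module.finrank K (ik f k) ≤ min (Fintype.card (Ro n k d)) (Mon n k).card := by
  unfold ik
  rw [hilb_thm n k r d K f hf, ← card_Dg]
  exact le_min (Matrix.rank_le_card_height _) (Matrix.rank_le_card_width _)

/-- Maximal rank gives the formula in small degrees. -/
theorem hilb_eq (K : Type) [Field K] (n r k : ℕ) (d : Fin r → ℕ) (hn : 1 ≤ n)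
    (hD : ∀ i, k < 2 * d i) (f : Fin r → MvPolynomial (Fin n) K)
    (hf : ∀ i, (f i).IsHomogeneous (d i))
    (hr : min (Fintype.card (Ro n k d)) (Mon n k).card ≤ Module.finrank K (ik f k)) :
    hilb f k = fro n d k := by
  classical
  have h1 : Module.finrank K (ik f k) = min (Fintype.card (Ro n k d)) (Mon n k).card :=
    le_antisymm (finrank_ik_le K n r k d f hf) hr
  have h2 : hilb f k = ((Mon n k).card : ℤ) -
      (min (Fintype.card (Ro n k d)) (Mon n k).card : ℕ) := by
    rw [← h1]
    unfold hilb ik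
    rw [dim_thm n k K]
  have hco : ∀ j ≤ k, co n d j = ((Mon n j).card : ℤ) - (Fintype.card (Ro n j d) : ℤ) := by
    intro j hj
    rw [co_thm n r k d hn hD j hj, card_Ro]
    push_cast
    rfl
  have hsg : ∀ j j', j ≤ j' → j' ≤ k → co n d j ≤ 0 → co n d j' ≤ 0 := by
    intro j j' hjj' hj' h
    rw [co_thm n r k d hn hD j (hjj'.trans hj')] at h
    rw [co_thm n r k d hn hD j' hj']
    exact sign_thm n r k d hn hD j j' hjj' hj' h
  rw [h2]
  unfold fro
  have h3 := hco k le_rfl
  by_cases h : ∀ j ≤ k, 0 < co n d j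
  · rw [if_pos h, h3]
    have h4 := h k le_rfl
    rw [h3] at h4
    rw [min_eq_left (by omega)]
  · rw [if_neg h]
    push Not at h
    obtain ⟨j, hj, hj2⟩ := h
    have h4 := hsg j k hj le_rfl hj2
    rw [h3] at h4
    rw [min_eq_right (by omega)]
    ring

theorem hilb_zero_iff (K : Type) [Field K] (n r k : ℕ)
    (f : Fin r → MvPolynomial (Fin n) K) (h : (Mon n k).card ≤ Module.finrank K (ik f k)) :
    hilb f k = 0 := by
  have h1 : Module.finrank K (ik f k) ≤ (Mon n k).card := by
    rw [← dim_thm n k K]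
    exact Submodule.finrank_mono inf_le_right
  unfold hilb
  have h2 : Module.finrank K ↥(Submodule.restrictScalars K (Ideal.span (Set.range f)) ⊓
      MvPolynomial.homogeneousSubmodule (Fin n) K k) = (Mon n k).card := le_antisymm h1 h
  rw [dim_thm n k K, h2]
  ring

/-- Once the quotient is zero it stays zero. -/
theorem ik_succ_top {K : Type} [Field K] {n r : ℕ} (f : Fin r → MvPolynomial (Fin n) K)
    (k : ℕ) (h : homogeneousSubmodule (Fin n) K k ≤ ik f k) :
    homogeneousSubmodule (Fin n) K (k + 1) ≤ ik f (k + 1) := by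
  intro x hx
  refine ⟨?_, hx⟩
  show x ∈ Ideal.span _
  rw [mem_homogeneousSubmodule] at hx
  rw [← x.support_sum_monomial_coeff]
  refine Ideal.sum_mem _ fun u hu => ?_
  have hu1 : u.degree = k + 1 := by
    by_contra hne
    exact (mem_support_iff.1 hu) (hx.coeff_eq_zero hne)
  obtain ⟨i, hi⟩ : ∃ i, u i ≠ 0 := by
    by_contra hne
    push Not at hne
    have : u = 0 := Finsupp.ext hne
    rw [this] at hu1
    simp at hu1
  have h2 : u = Finsupp.single i 1 + (u - Finsupp.single i 1) := by
    rw [add_tsub_cancel_of_le]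
    rw [Finsupp.single_le_iff]
    omega
  have h3 : (u - Finsupp.single i 1).degree = k := by
    have h4 := congrArg Finsupp.degree h2
    rw [map_add, Finsupp.degree_single] at h4
    omega
  have h5 : monomial (u - Finsupp.single i 1) (1 : K) ∈ ik f k :=
    h ((mem_homogeneousSubmodule _ _).2 (isHomogeneous_monomial _ h3))
  have h6 : monomial u (coeff u x) =
      monomial (Finsupp.single i 1) (coeff u x) * monomial (u - Finsupp.single i 1) (1 : K) := by
    rw [monomial_mul, mul_one, ← h2]
  rw [h6]
  exact Ideal.mul_mem_left _ _ h5.1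

theorem ik_top_of_card {K : Type} [Field K] {n r : ℕ} (f : Fin r → MvPolynomial (Fin n) K)
    (k : ℕ) (h : (Mon n k).card ≤ Module.finrank K (ik f k)) :
    homogeneousSubmodule (Fin n) K k ≤ ik f k := by
  have h1 : ik f k = homogeneousSubmodule (Fin n) K k := by
    apply Submodule.eq_of_le_of_finrank_le inf_le_right
    rw [dim_thm n k K]
    exact h
  exact h1.ge

theorem hilb_zero_of_top {K : Type} [Field K] {n r : ℕ} (f : Fin r → MvPolynomial (Fin n) K)
    (k : ℕ) (h : homogeneousSubmodule (Fin n) K k ≤ ik f k) : hilb f k = 0 := by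
  apply hilb_zero_iff
  have h1 : ik f k = homogeneousSubmodule (Fin n) K k := le_antisymm inf_le_right h
  rw [h1, dim_thm n k K]

theorem ik_top_mono {K : Type} [Field K] {n r : ℕ}
    (f : Fin r → MvPolynomial (Fin n) K) (k k' : ℕ) (hk : k ≤ k')
    (h : homogeneousSubmodule (Fin n) K k ≤ ik f k) :
    homogeneousSubmodule (Fin n) K k' ≤ ik f k' := by
  induction k', hk using Nat.le_induction with
  | base => exact h
  | succ m _ ih => exact ik_succ_top f m ih


/-- Semicontinuity, with a special family of forms over another field. -/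
theorem spec' (K L : Type) [Field K] [CharZero K] [Field L] [CharZero L] (n r k : ℕ)
    (d : Fin r → ℕ) (f0 : Fin r → MvPolynomial (Fin n) L) (h0 : ∀ i, (f0 i).IsHomogeneous (d i)) :
    ∃ P : MvPolynomial (Io n d) K, P ≠ 0 ∧
      ∀ f : Fin r → MvPolynomial (Fin n) K, (∀ i, (f i).IsHomogeneous (d i)) →
        MvPolynomial.eval (fun s : Io n d => (f s.1).coeff s.2.1) P ≠ 0 →
        Module.finrank L (ik f0 k) ≤ Module.finrank K (ik f k) := by
  classical
  obtain ⟨f, g, hfg⟩ := exists_minor (Mx d k (fun s : Io n d => (f0 s.1).coeff s.2.1)) _ le_rfl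
  let M : Matrix (Ro n k d) (Dg n k) (MvPolynomial (Io n d) ℤ) :=
    Mx d k (X : Io n d → MvPolynomial (Io n d) ℤ)
  have hev : ∀ (F : Type) [Field F] (t : Io n d → F),
      MvPolynomial.eval t (MvPolynomial.map (Int.castRingHom F) (M.submatrix f g).det) =
        ((Mx d k t).submatrix f g).det := by
    intro F _ t
    rw [MvPolynomial.eval_map, ← MvPolynomial.coe_eval₂Hom, RingHom.map_det]
    congr 1
    ext i j
    simp only [RingHom.mapMatrix_apply, Matrix.map_apply, Matrix.submatrix_apply]
    show eval₂Hom (Int.castRingHom F) t (Mx d k X (f i) (g j)) = _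
    unfold Mx
    split_ifs with h
    · rw [MvPolynomial.coe_eval₂Hom]
      exact MvPolynomial.eval₂_X _ _ _
    · exact map_zero _
  have hne : (M.submatrix f g).det ≠ 0 := by
    intro h
    apply hfg
    rw [← hev L, h, map_zero, map_zero]
  refine ⟨MvPolynomial.map (Int.castRingHom K) (M.submatrix f g).det, fun h => hne ?_,
    fun F hF hFP => ?_⟩
  · exact MvPolynomial.map_injective _ (RingHom.injective_int (Int.castRingHom K))
      (by rw [h, map_zero])
  · unfold ik
    rw [hilb_thm n k r d L f0 h0, hilb_thm n k r d K F hF]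
    rw [hev K] at hFP
    exact rank_ge_of_minor _ _ f g hFP

/-- The linear form with given coefficients. -/
noncomputable def lf {K : Type} [Field K] {n : ℕ} (p : Fin n → K) : MvPolynomial (Fin n) K :=
  ∑ j, C (p j) * X j

lemma lf_hom {K : Type} [Field K] {n : ℕ} (p : Fin n → K) : (lf p).IsHomogeneous 1 := by
  unfold lf
  refine IsHomogeneous.sum _ _ _ fun i _ => ?_
  have h := (isHomogeneous_C (Fin n) (p i)).mul (isHomogeneous_X K i)
  rwa [zero_add] at h

/-- The forms of degree `D` in `n` variables which vanish to order at least `w i` at the point with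
homogeneous coordinates `p i`, for all `i`. -/
noncomputable def fat {K : Type} [Field K] {n r : ℕ} (D : ℕ) (w : Fin r → ℕ)
    (p : Fin r → Fin n → K) : Submodule K (MvPolynomial (Fin n) K) where
  carrier := {F | F.IsHomogeneous D ∧ ∀ i, ∀ s : Fin n →₀ ℕ, s.degree < w i →
    coeff s (shift (p i) F) = 0}
  add_mem' := by
    rintro F G ⟨hF, hF'⟩ ⟨hG, hG'⟩
    refine ⟨hF.add hG, fun i s hs => ?_⟩
    rw [map_add, coeff_add, hF' i s hs, hG' i s hs, add_zero]
  zero_mem' := ⟨isHomogeneous_zero _ _ _, fun i s _ => by simp⟩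
  smul_mem' := by
    rintro c F ⟨hF, hF'⟩
    refine ⟨?_, fun i s hs => ?_⟩
    · rw [smul_eq_C_mul]
      simpa using (isHomogeneous_C (Fin n) c).mul hF
    · rw [map_smul, coeff_smul, hF' i s hs, smul_zero]

end Pool.Agent.TH176.FB
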