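import Pool.Agent.TH176.FB.Base
import Pool.Agent.H932R5.Final

/-!
The two-sided theorem on fat points, for the spaces `fat`.
-/

set_option autoImplicit false

namespace Pool.Agent.TH176.FB.J11

open MvPolynomial

/-- The substitution `X 0 ↦ 0`, `X (j + 1) ↦ X j`. -/
noncomputable def ps (K : Type) [Field K] (E : ℕ) :
    MvPolynomial (Fin (E + 2)) K →ₐ[K] MvPolynomial (Fin (E + 1)) K :=
  aeval (Fin.cons 0 (fun j => X j) : Fin (E + 2) → MvPolynomial (Fin (E + 1)) K)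

lemma ps_shift (K : Type) [Field K] (E : ℕ) (P : Fin (E + 1) → K)
    (F : MvPolynomial (Fin (E + 2)) K) :
    ps K E (shift (Fin.cons 1 P : Fin (E + 2) → K) F) =
      Pool.Agent.H932R5.shift P (Pool.Agent.H932R5.deh K E F) := by
  have h : (ps K E).comp (shift (Fin.cons 1 P : Fin (E + 2) → K)) =
      (Pool.Agent.H932R5.shift P).comp (Pool.Agent.H932R5.deh K E) := by
    refine MvPolynomial.algHom_ext fun i => ?_
    refine Fin.cases ?_ (fun j => ?_) i
    · simp [ps, shift, Pool.Agent.H932R5.deh_X0]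
    · simp [ps, shift, Pool.Agent.H932R5.deh_X, Pool.Agent.H932R5.shift_X]
  exact AlgHom.congr_fun h F

lemma key (K : Type) [Field K] (E : ℕ) (P : Fin (E + 1) → K) (F : MvPolynomial (Fin (E + 2)) K)
    (m : ℕ) (h : ∀ s : Fin (E + 2) →₀ ℕ, s.degree < m →
      coeff s (shift (Fin.cons 1 P : Fin (E + 2) → K) F) = 0) :
    Pool.Agent.H932R5.deh K E F ∈ Pool.Agent.H932R5.pt P ^ m := by
  rw [Pool.Agent.H932R5.mem_pt_pow_iff]
  rw [← mem_pow_idealOfVars_iff'] at h ⊢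
  rw [← ps_shift]
  have h1 := Ideal.mem_map_of_mem (ps K E) h
  rw [Ideal.map_pow] at h1
  refine Ideal.pow_right_mono ?_ m h1
  have hI : idealOfVars (Fin (E + 2)) K = Ideal.span (Set.range X) := rfl
  have hJ : idealOfVars (Fin (E + 1)) K = Ideal.span (Set.range X) := rfl
  rw [hI, Ideal.map_span, Ideal.span_le]
  rintro _ ⟨_, ⟨k, rfl⟩, rfl⟩
  refine Fin.cases ?_ (fun j => ?_) k
  · simp [ps]
  · have : ps K E (X j.succ) = X j := by simp [ps]
    rw [this, hJ]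
    exact Ideal.subset_span ⟨j, rfl⟩

lemma fat_le (K : Type) [Field K] (E D r : ℕ) (w : Fin r → ℕ) (P : Fin r → Fin (E + 1) → K) :
    fat D w (fun i => (Fin.cons 1 (P i) : Fin (E + 2) → K)) ≤ Pool.Agent.H932R5.Vd D w P := by
  rintro F ⟨hF, hF'⟩
  rw [Pool.Agent.H932R5.mem_Vd]
  refine ⟨hF, ?_⟩
  rw [Pool.Agent.H932R5.mem_Z]
  exact fun i => key K E (P i) F (w i) (hF' i)

lemma fin_Vd (K : Type) [Field K] (E D r : ℕ) (w : Fin r → ℕ) (P : Fin r → Fin (E + 1) → K) :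
    FiniteDimensional K ↥(Pool.Agent.H932R5.Vd D w P) := by
  have h : Pool.Agent.H932R5.Vd D w P ≤ homogeneousSubmodule (Fin (E + 2)) K D := by
    intro F hF
    exact (mem_homogeneousSubmodule _ _).2 (Pool.Agent.H932R5.mem_Vd.1 hF).1
  exact Submodule.finiteDimensional_of_le h

end Pool.Agent.TH176.FB.J11

namespace Pool.Agent.TH176.FB

open MvPolynomial

theorem fatC (E q : ℕ) : ∃ R : ℕ, 1 ≤ R ∧ ∀ (K : Type) [Field K] [CharZero K] (r : ℕ),
    R ≤ r → ∀ (w : Fin r → ℕ) (D : ℕ), ∃ p : Fin r → Fin (E + 2) → K,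
      (0 < ∑ i, w i → Pool.Agent.H932R5.Low E q r w D → fat D w p = ⊥) ∧
      (Pool.Agent.H932R5.Low E q r w D ∨ Pool.Agent.H932R5.High E q r w D →
        (Module.finrank K (fat D w p) : ℤ) ≤ max 0 (((D + E + 1).choose (E + 1) : ℤ) -
          ((∑ i, (w i + E).choose (E + 1) : ℕ) : ℤ))) := by
  obtain ⟨N, hN1, hN⟩ := Pool.Agent.H932R5.final_thm E q
  refine ⟨N, hN1, fun K _ _ r hr w D => ?_⟩
  obtain ⟨F, hF, hF'⟩ := hN K r hr w
  obtain ⟨P, hP⟩ : ∃ P : Fin r × Fin (E + 1) → K, eval P F ≠ 0 := by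
    by_contra hcon
    push Not at hcon
    exact hF (MvPolynomial.funext fun P => by rw [hcon P, map_zero])
  obtain ⟨h1, h2⟩ := hF' (fun i j => P (i, j)) hP D
  have hle := J11.fat_le K E D r w (fun i j => P (i, j))
  have hfin := J11.fin_Vd K E D r w (fun i j => P (i, j))
  refine ⟨fun i => Fin.cons 1 (fun j => P (i, j)), fun ha hb => ?_, fun ha => ?_⟩
  · rw [eq_bot_iff, ← h1 ha hb]
    exact hle
  · rw [← h2 ha]
    exact_mod_cast Submodule.finrank_mono hle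

end Pool.Agent.TH176.FB
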