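import Pool.Agent.TH176.FB.Final2
import Pool.Agent.TH176.FB.J11

/-!
The formula of Froeberg for a fixed number of variables and every large number of forms.
-/

set_option autoImplicit false

namespace Pool.Agent.TH176.FB

open MvPolynomial Finset Pool.Agent.TH206.Fro

/-- One degree. -/
theorem big_each (E Q : ℕ) : ∃ R : ℕ, 1 ≤ R ∧ ∀ (K : Type) [Field K] [CharZero K] (r : ℕ),
    R ≤ r → ∀ (d : Fin r → ℕ) (k : ℕ),
      (Pool.Agent.H932R5.Low E Q r (fun i => k + 1 - d i) k ∨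
        Pool.Agent.H932R5.High E Q r (fun i => k + 1 - d i) k) →
      ∃ P : MvPolynomial (Io (E + 2) d) K, P ≠ 0 ∧
        ∀ f : Fin r → MvPolynomial (Fin (E + 2)) K, (∀ i, (f i).IsHomogeneous (d i)) →
          MvPolynomial.eval (fun s : Io (E + 2) d => (f s.1).coeff s.2.1) P ≠ 0 →
          min (Fintype.card (Ro (E + 2) k d)) (Mon (E + 2) k).card ≤
              Module.finrank K (ik f k) ∧
            (Pool.Agent.H932R5.Low E Q r (fun i => k + 1 - d i) k →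
              0 < ∑ i, (k + 1 - d i) → (Mon (E + 2) k).card ≤ Module.finrank K (ik f k)) := by
  classical
  obtain ⟨R, hR1, hR⟩ := fatC E Q
  refine ⟨R, hR1, fun K _ _ r hr d k h => ?_⟩
  obtain ⟨p, hp1, hp2⟩ := hR K r hr (fun i => k + 1 - d i) k
  have hp3 := hp2 h
  have h1 := emsalem_iarrobino k d p
  rw [dim_thm (E + 2) k K, card_Mon_choose (E + 1) k] at h1
  have hRo := card_Ro_choose (E + 1) r k d (by omega)
  obtain ⟨P, hP, hP2⟩ := spec K (E + 2) r k d (fun i => lf (p i) ^ d i) (fun i => by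
    have h := (lf_hom (p i)).pow (d i)
    rwa [one_mul] at h)
  refine ⟨P, hP, fun f hf hfP => ⟨le_trans ?_ (hP2 f hf hfP), fun hL h0 => le_trans ?_
    (hP2 f hf hfP)⟩⟩
  · rw [card_Mon_choose (E + 1) k, hRo]
    have e1 : ∀ i : Fin r, k + 1 - d i + (E + 1 - 1) = k + 1 - d i + E := fun i => by omega
    simp only [e1]
    have e2 : k + (E + 1) = k + E + 1 := by ring
    rw [e2] at h1 ⊢
    rw [min_le_iff]
    by_contra hcon
    push Not at hcon
    obtain ⟨hc1, hc2⟩ := hcon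
    have h4 : (Module.finrank K (ik (fun i => lf (p i) ^ d i) k) : ℤ) +
        Module.finrank K (fat k (fun i => k + 1 - d i) p) = ((k + E + 1).choose (E + 1) : ℤ) := by
      exact_mod_cast h1
    rcases le_total (0 : ℤ) (((k + E + 1).choose (E + 1) : ℤ) -
          ((∑ i, (k + 1 - d i + E).choose (E + 1) : ℕ) : ℤ)) with h5 | h5
    · rw [max_eq_right h5] at hp3
      omega
    · rw [max_eq_left h5] at hp3
      omega
  · rw [card_Mon_choose (E + 1) k]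
    have h2 := hp1 h0 hL
    rw [h2, finrank_bot, add_zero] at h1
    exact h1.ge


namespace Big

open Pool.Agent.H932R5

lemma sum_lb {r δ s k : ℕ} {d : Fin r → ℕ} (hd : ∀ i, δ ≤ d i ∧ d i ≤ δ + s) :
    r * (k + 1 - (δ + s)) ≤ ∑ i, (k + 1 - d i) := by
  calc r * (k + 1 - (δ + s)) = ∑ _i : Fin r, (k + 1 - (δ + s)) := by simp
    _ ≤ _ := Finset.sum_le_sum fun i _ => by have := (hd i).2; omega

lemma sum_ub {r δ s k : ℕ} {d : Fin r → ℕ} (hd : ∀ i, δ ≤ d i ∧ d i ≤ δ + s) :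
    ∑ i, (k + 1 - d i) ≤ r * (k + 1 - δ) := by
  calc ∑ i, (k + 1 - d i) ≤ ∑ _i : Fin r, (k + 1 - δ) :=
        Finset.sum_le_sum fun i _ => by have := (hd i).1; omega
    _ = _ := by simp

lemma low1 {E Q r δ s k : ℕ} {d : Fin r → ℕ} {ρ : ℝ} (hd : ∀ i, δ ≤ d i ∧ d i ≤ δ + s)
    (hr : 0 < r) (hk : 1 ≤ k) (h0 : 0 < ρ) (hρ : ρ ^ (E + 1) = r)
    (hρE : (r : ℝ) ^ ((E : ℝ) / (E + 1)) = ρ ^ E)
    (h : (1 + 1 / (r : ℝ) ^ Q) * k ≤ ρ * (k + 1 - δ - s)) :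
    Low E Q r (fun i => k + 1 - d i) k ∧ 0 < ∑ i, (k + 1 - d i) := by
  have hrR : (0 : ℝ) < r := by exact_mod_cast hr
  have hkR : (1 : ℝ) ≤ k := by exact_mod_cast hk
  have h1 : (0 : ℝ) < (1 + 1 / (r : ℝ) ^ Q) * k := by positivity
  have h2 : (0 : ℝ) < (k : ℝ) + 1 - δ - s := by
    by_contra hcon
    push Not at hcon
    have : ρ * ((k : ℝ) + 1 - δ - s) ≤ 0 := mul_nonpos_of_nonneg_of_nonpos h0.le hcon
    linarith
  have h3 : δ + s < k + 1 := by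
    have : ((δ + s : ℕ) : ℝ) < ((k + 1 : ℕ) : ℝ) := by push_cast; linarith
    exact_mod_cast this
  obtain ⟨u, hu⟩ : ∃ u, u = k + 1 - (δ + s) := ⟨_, rfl⟩
  have hu1 : 1 ≤ u := by omega
  have huR : (u : ℝ) = (k : ℝ) + 1 - δ - s := by
    have : u + (δ + s) = k + 1 := by omega
    have : ((u + (δ + s) : ℕ) : ℝ) = ((k + 1 : ℕ) : ℝ) := by rw [this]
    push_cast at this
    linarith
  have hs := sum_lb (k := k) hd
  rw [← hu] at hs
  have hs0 : 0 < r * u := Nat.mul_pos hr hu1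
  refine ⟨Or.inl ?_, by omega⟩
  rw [hρE]
  have hsR : ((r * u : ℕ) : ℝ) ≤ ((∑ i, (k + 1 - d i) : ℕ) : ℝ) := by exact_mod_cast hs
  have e1 : ((∑ i, (k + 1 - d i) : ℕ) : ℝ) = ∑ i, ((k + 1 - d i : ℕ) : ℝ) := by push_cast; rfl
  rw [← e1]
  refine le_trans ?_ hsR
  rw [← huR] at h
  push_cast
  rw [← hρ]
  calc (1 + 1 / (ρ ^ (E + 1)) ^ Q) * (ρ ^ E * k) = ρ ^ E * ((1 + 1 / (ρ ^ (E + 1)) ^ Q) * k) := by
        ring
    _ ≤ ρ ^ E * (ρ * u) := by
        rw [← hρ] at h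
        exact mul_le_mul_of_nonneg_left h (by positivity)
    _ = ρ ^ (E + 1) * u := by ring

lemma low2 {E q r δ s k : ℕ} {d : Fin r → ℕ} {ρ : ℝ} (hd : ∀ i, δ ≤ d i ∧ d i ≤ δ + s)
    (hr : 0 < r) (hk2 : k < 2 * δ) (hδ : δ ≤ r ^ q)
    (h0 : 0 < ρ) (hρ : ρ ^ (E + 1) = r) (h : (k : ℝ) < ρ * (k + 1 - δ - s)) :
    Low E (q + 2) r (fun i => k + 1 - d i) k ∧ 0 < ∑ i, (k + 1 - d i) := by
  have hrR : (0 : ℝ) < r := by exact_mod_cast hr
  have hkR : (0 : ℝ) ≤ k := Nat.cast_nonneg k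
  have h2 : (0 : ℝ) < (k : ℝ) + 1 - δ - s := by
    by_contra hcon
    push Not at hcon
    have : ρ * ((k : ℝ) + 1 - δ - s) ≤ 0 := mul_nonpos_of_nonneg_of_nonpos h0.le hcon
    linarith
  have h3 : δ + s < k + 1 := by
    have : ((δ + s : ℕ) : ℝ) < ((k + 1 : ℕ) : ℝ) := by push_cast; linarith
    exact_mod_cast this
  obtain ⟨u, hu⟩ : ∃ u, u = k + 1 - (δ + s) := ⟨_, rfl⟩
  have hu1 : 1 ≤ u := by omega
  have huR : (u : ℝ) = (k : ℝ) + 1 - δ - s := by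
    have : u + (δ + s) = k + 1 := by omega
    have : ((u + (δ + s) : ℕ) : ℝ) = ((k + 1 : ℕ) : ℝ) := by rw [this]
    push_cast at this
    linarith
  have hs := sum_lb (k := k) hd
  rw [← hu] at hs
  have hs0 : 0 < r * u := Nat.mul_pos hr hu1
  refine ⟨Or.inr ⟨?_, ?_⟩, by omega⟩
  · calc ∑ i, (k + 1 - d i) ≤ r * (k + 1 - δ) := sum_ub hd
      _ ≤ r * r ^ q := Nat.mul_le_mul_left _ (by omega)
      _ = r ^ (q + 1) := by ring
      _ ≤ r ^ (q + 2) := Nat.pow_le_pow_right hr (by omega)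
  · have h4 : r ^ E * k ^ (E + 1) < (r * u) ^ (E + 1) := by
      have h5 : ((k ^ (E + 1) : ℕ) : ℝ) < ((r * u ^ (E + 1) : ℕ) : ℝ) := by
        push_cast
        rw [← hρ, ← mul_pow]
        rw [← huR] at h
        exact pow_lt_pow_left₀ h hkR (by omega)
      have h6 : k ^ (E + 1) < r * u ^ (E + 1) := by exact_mod_cast h5
      calc r ^ E * k ^ (E + 1) < r ^ E * (r * u ^ (E + 1)) :=
            Nat.mul_lt_mul_of_pos_left h6 (pow_pos hr _)
        _ = (r * u) ^ (E + 1) := by ring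
    exact lt_of_lt_of_le h4 (Nat.pow_le_pow_left hs _)

lemma high {E Q r δ s k : ℕ} {d : Fin r → ℕ} {ρ : ℝ} (hd : ∀ i, δ ≤ d i ∧ d i ≤ δ + s)
    (hk : δ ≤ k) (h0 : 0 < ρ) (hρ1 : (r : ℝ) ^ ((1 : ℝ) / (E + 1)) = ρ)
    (h : (1 + 1 / (r : ℝ) ^ Q) * (ρ * (k + E + 1 - δ)) ≤ k) :
    High E Q r (fun i => k + 1 - d i) k := by
  intro i
  rw [hρ1]
  refine le_trans ?_ h
  refine mul_le_mul_of_nonneg_left (mul_le_mul_of_nonneg_left ?_ h0.le) (by positivity)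
  have h1 : k + 1 - d i ≤ k + 1 - δ := by have := (hd i).1; omega
  have h2 : ((k + 1 - d i : ℕ) : ℝ) ≤ ((k + 1 - δ : ℕ) : ℝ) := by exact_mod_cast h1
  rw [Nat.cast_sub (show δ ≤ k + 1 by omega)] at h2
  push_cast at h2
  have h3 : ((fun i => k + 1 - d i) i : ℕ) = k + 1 - d i := rfl
  rw [h3]
  linarith

end Big

open Pool.Agent.H932R5 Big in
/-- The explicit range. -/
theorem big_main (E q : ℕ) : ∃ R : ℕ, 8 ^ (E + 1) ≤ R ∧ ∀ (K : Type) [Field K] [CharZero K]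
    (r δ s : ℕ) (d : Fin r → ℕ), R ≤ r → 1 ≤ δ → 2 * s ≤ δ → (∀ i, δ ≤ d i ∧ d i ≤ δ + s) →
      ∃ P : MvPolynomial (Io (E + 2) d) K, P ≠ 0 ∧
        ∀ f : Fin r → MvPolynomial (Fin (E + 2)) K, (∀ i, (f i).IsHomogeneous (d i)) →
          MvPolynomial.eval (fun s : Io (E + 2) d => (f s.1).coeff s.2.1) P ≠ 0 →
          ∀ k : ℕ, (k < δ ∨ 2 * δ - 1 ≤ k ∨
            (1 + 1 / (r : ℝ) ^ (q + 2)) * ((r : ℝ) ^ ((1 : ℝ) / (E + 1)) * (k + E + 1 - δ)) ≤ k ∨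
            (1 + 1 / (r : ℝ) ^ (q + 2)) * k ≤ (r : ℝ) ^ ((1 : ℝ) / (E + 1)) * (k + 1 - δ - s) ∨
            (δ ≤ r ^ q ∧ (k : ℝ) < (r : ℝ) ^ ((1 : ℝ) / (E + 1)) * (k + 1 - δ - s))) →
            hilb f k = fro (E + 2) d k := by
  classical
  obtain ⟨R, hR1, hR⟩ := big_each E (q + 2)
  refine ⟨R + 8 ^ (E + 1), by omega, fun K _ _ r δ s d hr hδ hs hd => ?_⟩
  have hrR0 : R ≤ r := (Nat.le_add_right _ _).trans hr
  have hr0 : 0 < r := lt_of_lt_of_le hR1 hrR0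
  obtain ⟨h0, hρ, hρE⟩ := pos_root (E := E) hr0
  obtain ⟨ρ, hρ1⟩ : ∃ ρ : ℝ, (r : ℝ) ^ ((1 : ℝ) / (E + 1)) = ρ := ⟨_, rfl⟩
  rw [hρ1] at h0 hρ hρE ⊢
  have hρ8 : 8 ≤ ρ := by
    by_contra hcon
    push Not at hcon
    have h1 : ρ ^ (E + 1) < 8 ^ (E + 1) := pow_lt_pow_left₀ hcon h0.le (by omega)
    rw [hρ] at h1
    have h2 : r < 8 ^ (E + 1) := by exact_mod_cast h1
    omega
  have hrR : (1 : ℝ) ≤ r := by exact_mod_cast hr0
  have hε : 1 / (r : ℝ) ^ (q + 2) ≤ 1 := by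
    rw [div_le_one (by positivity)]
    exact one_le_pow₀ hrR
  have hε0 : 0 ≤ 1 / (r : ℝ) ^ (q + 2) := by positivity
  -- one degree
  have hA : ∀ k : ℕ, ∃ P : MvPolynomial (Io (E + 2) d) K, P ≠ 0 ∧
      ∀ f : Fin r → MvPolynomial (Fin (E + 2)) K, (∀ i, (f i).IsHomogeneous (d i)) →
        MvPolynomial.eval (fun s : Io (E + 2) d => (f s.1).coeff s.2.1) P ≠ 0 →
        ((Low E (q + 2) r (fun i => k + 1 - d i) k ∨ High E (q + 2) r (fun i => k + 1 - d i) k) →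
          min (Fintype.card (Ro (E + 2) k d)) (Mon (E + 2) k).card ≤
            Module.finrank K (ik f k)) ∧
        (Low E (q + 2) r (fun i => k + 1 - d i) k →
          0 < ∑ i, (k + 1 - d i) → (Mon (E + 2) k).card ≤ Module.finrank K (ik f k)) := by
    intro k
    by_cases h : Low E (q + 2) r (fun i => k + 1 - d i) k ∨
        High E (q + 2) r (fun i => k + 1 - d i) k
    · obtain ⟨P, hP, hP2⟩ := hR K r hrR0 d k h
      exact ⟨P, hP, fun f hf hfP => ⟨fun _ => (hP2 f hf hfP).1, (hP2 f hf hfP).2⟩⟩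
    · exact ⟨1, one_ne_zero, fun f _ _ => ⟨fun h' => absurd h' h, fun h' => absurd (Or.inl h') h⟩⟩
  choose P hP hP2 using hA
  refine ⟨∏ k ∈ Finset.range (2 * δ), P k, Finset.prod_ne_zero_iff.2 fun k _ => hP k,
    fun f hf hfP => ?_⟩
  rw [map_prod, Finset.prod_ne_zero_iff] at hfP
  -- the degree `2 δ - 1`
  have htop : homogeneousSubmodule (Fin (E + 2)) K (2 * δ - 1) ≤ ik f (2 * δ - 1) := by
    have h1 := low1 (E := E) (Q := q + 2) (k := 2 * δ - 1) hd hr0 (by omega) h0 hρ hρE (by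
      rw [Nat.cast_sub (by omega)]
      push_cast
      have hδR : (1 : ℝ) ≤ δ := by exact_mod_cast hδ
      have hsR : 2 * (s : ℝ) ≤ δ := by exact_mod_cast hs
      have h2 : (1 + 1 / (r : ℝ) ^ (q + 2)) * (2 * δ - 1) ≤ 2 * (2 * δ - 1) :=
        mul_le_mul_of_nonneg_right (by linarith) (by linarith)
      have h3 : 8 * (2 * (δ : ℝ) - 1 + 1 - δ - s) ≤ ρ * (2 * δ - 1 + 1 - δ - s) :=
        mul_le_mul_of_nonneg_right hρ8 (by linarith)
      linarith)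
    exact ik_top_of_card f _ ((hP2 (2 * δ - 1) f hf (hfP _ (Finset.mem_range.2 (by omega)))).2
      h1.1 h1.2)
  have hbig : ∀ k, 2 * δ - 1 ≤ k → hilb f k = fro (E + 2) d k := fun k hk => by
    rw [fro_zero K (E + 2) r δ d (by omega) (fun i => (hd i).1) f hf (2 * δ - 1) (by omega) htop k
      hk]
    exact hilb_zero_of_top f k (ik_top_mono f _ k hk htop)
  have hsmall : ∀ k, k < δ → hilb f k = fro (E + 2) d k := fun k hk => by
    refine hilb_eq K (E + 2) r k d (by omega) (fun i => by have := (hd i).1; omega) f hf ?_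
    have h1 : Fintype.card (Ro (E + 2) k d) = 0 := by
      rw [card_Ro]
      refine Finset.sum_eq_zero fun i _ => if_neg ?_
      have := (hd i).1
      omega
    rw [h1]
    exact (min_le_left _ _).trans (Nat.zero_le _)
  intro k hk
  rcases lt_or_ge k δ with hk1 | hk1
  · exact hsmall k hk1
  rcases lt_or_ge k (2 * δ - 1) with hk2 | hk2
  swap
  · exact hbig k hk2
  have hLH : Low E (q + 2) r (fun i => k + 1 - d i) k ∨
      High E (q + 2) r (fun i => k + 1 - d i) k := by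
    rcases hk with hk | hk | hk | hk | hk
    · omega
    · omega
    · exact Or.inr (high hd hk1 h0 hρ1 hk)
    · exact Or.inl (low1 hd hr0 (by omega) h0 hρ hρE hk).1
    · exact Or.inl (low2 hd hr0 (by omega) hk.1 h0 hρ hk.2).1
  exact hilb_eq K (E + 2) r k d (by omega) (fun i => by have := (hd i).1; omega) f hf
    ((hP2 k f hf (hfP k (Finset.mem_range.2 (by omega)))).1 hLH)

end Pool.Agent.TH176.FB
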