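import Pool.Agent.TH176.FB.Big

/-!
The formula of Froeberg for a fixed number of variables and every large number of forms: the number
of exceptional degrees.
-/

set_option autoImplicit false

namespace Pool.Agent.TH176.FB

open MvPolynomial Finset Pool.Agent.TH206.Fro

namespace Big

/-- The number of the exceptional degrees. -/
lemma count {E q r δ s k k₀ : ℕ} {ρ : ℝ} (hρ : ρ ^ (E + 1) = r) (hρ8 : 4 * (E : ℝ) + 8 ≤ ρ)
    (hδ1 : 1 ≤ δ) (hδ : δ ≤ r ^ q)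
    (h1 : (k₀ : ℝ) < (1 + 1 / (r : ℝ) ^ (q + 2)) * (ρ * (k₀ + E + 1 - δ)))
    (h2 : ρ * ((k : ℝ) + 1 - δ - s) ≤ k) : k < k₀ + (E + 1 + 2 * s) := by
  by_contra hcon
  push Not at hcon
  have hE0 : (0 : ℝ) ≤ E := Nat.cast_nonneg E
  have hs0 : (0 : ℝ) ≤ s := Nat.cast_nonneg s
  have hρ1 : 1 ≤ ρ := by linarith
  have hr : ρ ≤ r := by
    rw [← hρ]
    exact le_self_pow₀ hρ1 (by omega)
  have hr1 : (1 : ℝ) ≤ r := hρ1.trans hr
  have hr0 : (0 : ℝ) < r := by linarith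
  have hδR : (1 : ℝ) ≤ δ := by exact_mod_cast hδ1
  have hδR2 : (δ : ℝ) ≤ (r : ℝ) ^ q := by exact_mod_cast hδ
  have hc : (k₀ : ℝ) + (E + 1 + 2 * s) ≤ k := by exact_mod_cast hcon
  obtain ⟨η, hη⟩ : ∃ η : ℝ, η = 1 / (r : ℝ) ^ (q + 2) := ⟨_, rfl⟩
  rw [← hη] at h1
  have hη0 : 0 ≤ η := by rw [hη]; positivity
  -- the size of the error
  have hηδ : η * (ρ * (δ - 1)) ≤ 1 := by
    have h3 : η * (r : ℝ) ^ (q + 2) = 1 := by
      rw [hη]
      field_simp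
    have h4 : ρ * ((δ : ℝ) - 1) ≤ r * r ^ q := mul_le_mul hr (by linarith) (by linarith) hr0.le
    have h5 : (r : ℝ) * r ^ q ≤ r ^ (q + 2) := by
      have : (r : ℝ) ^ (q + 2) = r * (r * r ^ q) := by ring
      rw [this]
      exact le_mul_of_one_le_left (by positivity) hr1
    calc η * (ρ * (δ - 1)) ≤ η * (r : ℝ) ^ (q + 2) :=
          mul_le_mul_of_nonneg_left (h4.trans h5) hη0
      _ = 1 := h3
  obtain ⟨σ, hσ⟩ : ∃ σ : ℝ, σ = (1 + η) * ρ := ⟨_, rfl⟩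
  have hσρ : ρ ≤ σ := by
    rw [hσ]
    exact le_mul_of_one_le_left (by linarith) (by linarith)
  have h1' : σ * ((δ : ℝ) - E - 1) < (σ - 1) * k₀ := by
    have e : (1 + η) * (ρ * (k₀ + E + 1 - δ)) = σ * (k₀ + E + 1 - δ) := by rw [hσ]; ring
    rw [e] at h1
    linarith
  have h2' : (ρ - 1) * ((k₀ : ℝ) + (E + 1 + 2 * s)) ≤ ρ * (δ + s - 1) := by
    have h3 : (ρ - 1) * ((k₀ : ℝ) + (E + 1 + 2 * s)) ≤ (ρ - 1) * k :=
      mul_le_mul_of_nonneg_left hc (by linarith)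
    linarith
  have h3 : (σ - 1) * ((ρ - 1) * ((k₀ : ℝ) + (E + 1 + 2 * s))) ≤
      (σ - 1) * (ρ * (δ + s - 1)) := mul_le_mul_of_nonneg_left h2' (by linarith)
  have h4 : (ρ - 1) * (σ * ((δ : ℝ) - E - 1)) < (ρ - 1) * ((σ - 1) * k₀) :=
    mul_lt_mul_of_pos_left h1' (by linarith)
  have h5 : (ρ - 1) * (σ - E - 1) + (σ - 1) * ((ρ - 2) * s) < (σ - ρ) * (δ - 1) := by
    nlinarith
  have h6 : (σ - ρ) * ((δ : ℝ) - 1) ≤ 1 := by
    have e : (σ - ρ) * ((δ : ℝ) - 1) = η * (ρ * (δ - 1)) := by rw [hσ]; ring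
    rw [e]
    exact hηδ
  have h7 : 0 ≤ (σ - 1) * ((ρ - 2) * s) :=
    mul_nonneg (by linarith) (mul_nonneg (by linarith) hs0)
  have h8 : 7 * (σ - E - 1) ≤ (ρ - 1) * (σ - E - 1) :=
    mul_le_mul_of_nonneg_right (by linarith) (by linarith)
  linarith

/-- The condition for the small multiplicities. -/
lemma cond206 {E r δ k : ℕ} {ρ : ℝ} (hρ : ρ ^ (E + 1) = r) (hρ2 : 2 ≤ ρ) (hδ : 1 ≤ δ)
    (hδk : δ ≤ k) (hk : ρ * ((k : ℝ) + 1 - δ) ≤ k)
    (hr : (2 * E + 4) ^ ((E + 1) * (E + 2)) * δ ^ (E + 1) ≤ r ^ (E + 2)) :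
    Cond (E + 2) (k - δ) δ := by
  obtain ⟨e, rfl⟩ : ∃ e, k = δ + e := ⟨k - δ, by omega⟩
  rw [Nat.add_sub_cancel_left]
  have hr0 : 0 < r := by
    rcases Nat.eq_zero_or_pos r with h | h
    · rw [h, Nat.cast_zero] at hρ
      have : 0 < ρ ^ (E + 1) := by positivity
      linarith
    · exact h
  have h1 : ρ * ((e : ℝ) + 1) ≤ 2 * δ := by
    push_cast at hk
    have h2 : ρ * ((δ : ℝ) + e + 1 - δ) = ρ * (e + 1) := by ring
    rw [h2] at hk
    have h3 : 2 * ((e : ℝ) + 1) ≤ ρ * (e + 1) :=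
      mul_le_mul_of_nonneg_right hρ2 (by positivity)
    linarith
  have h2 : (((E + 2 + e : ℕ) : ℝ)) * ρ ≤ ((2 * E + 4 : ℕ) : ℝ) * δ := by
    push_cast
    have h3 : ((E : ℝ) + 2 + e) ≤ (E + 2) * (e + 1) := by
      have : (0 : ℝ) ≤ E * e := by positivity
      nlinarith
    calc ((E : ℝ) + 2 + e) * ρ ≤ ((E + 2) * (e + 1)) * ρ :=
          mul_le_mul_of_nonneg_right h3 (by linarith)
      _ = (E + 2) * (ρ * (e + 1)) := by ring
      _ ≤ (E + 2) * (2 * δ) := mul_le_mul_of_nonneg_left h1 (by positivity)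
      _ = _ := by ring
  have h3 : (E + 2 + e) ^ (E + 2) ≤ δ ^ (E + 1) := by
    refine le_of_pow_le_pow_left₀ (show E + 1 ≠ 0 by omega) (Nat.zero_le _) ?_
    have h4 : 0 < r ^ (E + 2) := pow_pos hr0 _
    refine le_of_mul_le_mul_right ?_ h4
    have h5 : (((E + 2 + e : ℕ) : ℝ) * ρ) ^ ((E + 1) * (E + 2)) ≤
        (((2 * E + 4 : ℕ) : ℝ) * δ) ^ ((E + 1) * (E + 2)) :=
      pow_le_pow_left₀ (by positivity) h2 _
    have e1 : (((E + 2 + e : ℕ) : ℝ) * ρ) ^ ((E + 1) * (E + 2)) =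
        ((((E + 2 + e) ^ (E + 2)) ^ (E + 1) * r ^ (E + 2) : ℕ) : ℝ) := by
      rw [Nat.cast_mul, Nat.cast_pow, Nat.cast_pow, Nat.cast_pow, mul_pow, ← hρ, ← pow_mul,
        ← pow_mul, mul_comm (E + 1) (E + 2)]
    have e2 : (((2 * E + 4 : ℕ) : ℝ) * δ) ^ ((E + 1) * (E + 2)) =
        (((2 * E + 4) ^ ((E + 1) * (E + 2)) * δ ^ (E + 1) * (δ ^ (E + 1)) ^ (E + 1) : ℕ) : ℝ) := by
      rw [Nat.cast_mul, Nat.cast_mul, Nat.cast_pow, Nat.cast_pow, Nat.cast_pow, Nat.cast_pow,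
        mul_pow, mul_assoc, ← pow_mul, ← pow_add]
      congr 2
      ring
    rw [e1, e2] at h5
    have h6 : ((E + 2 + e) ^ (E + 2)) ^ (E + 1) * r ^ (E + 2) ≤
        (2 * E + 4) ^ ((E + 1) * (E + 2)) * δ ^ (E + 1) * (δ ^ (E + 1)) ^ (E + 1) := by
      exact_mod_cast h5
    refine h6.trans ?_
    rw [mul_comm ((δ ^ (E + 1)) ^ (E + 1))]
    exact Nat.mul_le_mul_right _ hr
  right
  have e1 : (E + 2 + e) * (E + 2 + e - 1).choose e = (E + 2 + e).choose (E + 2) * (E + 2) := by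
    have h4 : E + 2 + e - 1 = E + 1 + e := by omega
    rw [h4, ← Nat.choose_symm_of_eq_add (show E + 1 + e = (E + 1) + e by ring)]
    have h5 := Nat.add_one_mul_choose_eq (E + 1 + e) (E + 1)
    have h6 : E + 1 + e + 1 = E + 2 + e := by omega
    rw [h6] at h5
    exact h5
  have e2 : (E + 2 + δ - 1).choose δ = (E + 1 + δ).choose (E + 1) := by
    have h4 : E + 2 + δ - 1 = E + 1 + δ := by omega
    rw [h4]
    exact (Nat.choose_symm_of_eq_add (show E + 1 + δ = (E + 1) + δ by ring)).symm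
  rw [mul_assoc, e1, e2]
  have h4 : 2 * (E + 2 + e).choose (E + 2) ≤ (E + 1 + δ).choose (E + 1) := by
    have hf : 0 < (E + 2).factorial := Nat.factorial_pos _
    refine Nat.le_of_mul_le_mul_left ?_ hf
    have h5 : (E + 2).factorial * (E + 2 + e).choose (E + 2) ≤ (E + 2 + e) ^ (E + 2) := by
      rw [← Nat.descFactorial_eq_factorial_mul_choose]
      exact Nat.descFactorial_le_pow _ _
    have h6 : δ ^ (E + 1) ≤ (E + 1).factorial * (E + 1 + δ).choose (E + 1) := by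
      rw [← Nat.descFactorial_eq_factorial_mul_choose]
      refine le_trans ?_ (Nat.pow_sub_le_descFactorial _ _)
      exact Nat.pow_le_pow_left (by omega) _
    have h7 : (E + 2).factorial = (E + 2) * (E + 1).factorial := Nat.factorial_succ _
    calc (E + 2).factorial * (2 * (E + 2 + e).choose (E + 2)) =
          2 * ((E + 2).factorial * (E + 2 + e).choose (E + 2)) := by ring
      _ ≤ 2 * δ ^ (E + 1) := Nat.mul_le_mul_left _ (h5.trans h3)
      _ ≤ (E + 2) * ((E + 1).factorial * (E + 1 + δ).choose (E + 1)) :=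
          Nat.mul_le_mul (by omega) h6
      _ = (E + 2).factorial * (E + 1 + δ).choose (E + 1) := by rw [h7]; ring
  calc 2 * ((E + 2 + e).choose (E + 2) * (E + 2)) =
        (E + 2) * (2 * (E + 2 + e).choose (E + 2)) := by ring
    _ ≤ _ := Nat.mul_le_mul_left _ h4

end Big

end Pool.Agent.TH176.FB
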