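import Pool.Agent.TH176.FB.Defs
import Pool.Agent.H822.Mult

/-!
Polynomials of degree less than `s m` which vanish to order `m` on a grid of side `s`
(after the multiplicity lemma of the starting file `Pool.Agent.H822.Mult`).
-/

set_option autoImplicit false

namespace Pool.Agent.TH176.FB

open MvPolynomial

namespace J7

open Pool.Agent.H822

/-- multiplicity lemma on a grid -/
theorem mult_grid {F : Type} [Field F] (S : Finset F) (hS : 0 < S.card) (c : ℕ) :
    ∀ (μ : ℕ) (G : MvPolynomial (Fin c) F),
    (∀ v : Fin c → F, (∀ i, v i ∈ S) → ∀ γ : Fin c →₀ ℕ, γ.degree < μ → coeff γ (sh v G) = 0) →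
      G ≠ 0 → μ * S.card ≤ G.totalDegree := by
  classical
  induction c with
  | zero =>
    intro μ G h hG
    rcases Nat.eq_zero_or_pos μ with hμ | hμ
    · subst hμ; simp
    · exfalso
      apply hG
      have h0 := h 0 (fun i => i.elim0) 0 (by simpa using hμ)
      rw [sh_zero] at h0
      ext m
      have : m = 0 := Subsingleton.elim _ _
      rw [this, h0]; simp
  | succ c ih =>
    intro μ G h hG
    set q := S.card with hq
    have hqpos : 0 < q := hS
    set H := finSuccEquiv F c G with hH
    have hH0 : H ≠ 0 := by
      rw [hH]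
      intro h0
      exact hG ((map_eq_zero_iff _ (finSuccEquiv F c).injective).1 h0)
    set i₀ := H.natDegree with hi₀
    set g := H.coeff i₀ with hg
    have hg0 : g ≠ 0 := by
      rw [hg, hi₀]
      exact Polynomial.leadingCoeff_ne_zero.2 hH0
    have hdeg : g.totalDegree + i₀ ≤ G.totalDegree :=
      totalDegree_coeff_finSuccEquiv_add_le G i₀ hg0
    have key : (μ - i₀ / q) * q ≤ g.totalDegree := by
      apply ih (μ - i₀ / q) g _ hg0
      intro v' hv' γ' hγ'
      set p := slice v' γ' H with hp
      have hpc : p.coeff i₀ = coeff γ' (sh v' g) := by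
        rw [hp, coeff_slice]
      rw [← hpc]
      by_contra hne
      have hp0 : p ≠ 0 := by
        intro h0; rw [h0] at hne; simp at hne
      have hpdeg : p.natDegree ≤ i₀ := natDegree_slice_le _ _ _
      have hdvd : ∀ a ∈ S, (Polynomial.X - Polynomial.C a) ^ (μ - γ'.degree) ∣ p := by
        intro a ha
        rw [Polynomial.X_sub_C_pow_dvd_iff, ← Polynomial.taylor_apply, Polynomial.X_pow_dvd_iff]
        intro i hi
        rw [hp, hH, taylor_slice]
        apply h
        · intro j
          refine Fin.cases ?_ (fun k => ?_) j
          · exact ha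
          · exact hv' k
        · rw [degree_cons']
          omega
      have hprod : ∏ a ∈ S, (Polynomial.X - Polynomial.C a) ^ (μ - γ'.degree) ∣ p := by
        apply Finset.prod_dvd_of_coprime _ hdvd
        intro a _ b _ hab
        apply IsCoprime.pow
        exact Polynomial.isCoprime_X_sub_C_of_isUnit_sub (sub_ne_zero.2 hab).isUnit
      have hd := Polynomial.natDegree_le_of_dvd hprod hp0
      rw [Polynomial.natDegree_prod _ _
        (fun a _ => pow_ne_zero _ (Polynomial.X_sub_C_ne_zero a))] at hd
      simp only [Polynomial.natDegree_pow, Polynomial.natDegree_X_sub_C, mul_one, Finset.sum_const,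
        smul_eq_mul] at hd
      rw [← hq] at hd
      have h1 : i₀ / q < μ - γ'.degree := by omega
      have h2 : i₀ < q * (μ - γ'.degree) := by
        rw [Nat.div_lt_iff_lt_mul hqpos] at h1
        rw [mul_comm]; exact h1
      omega
    calc μ * q ≤ (μ - i₀ / q) * q + (i₀ / q) * q := by
          rw [← add_mul]
          apply Nat.mul_le_mul_right
          omega
      _ ≤ g.totalDegree + i₀ := by
          gcongr
          exact Nat.div_mul_le_self i₀ q
      _ ≤ _ := hdeg

end J7

theorem exists_vanish {K : Type} [Field K] [CharZero K] (N s : ℕ) (hs : 1 ≤ s) :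
    ∃ Z : Finset (Fin N → K), Z.card = s ^ N ∧
      ∀ e D : ℕ, D < s * (e + 1) → Vanish Z e D := by
  classical
  set S : Finset K := (Finset.range s).image (fun n : ℕ => (n : K)) with hS
  have hcard : S.card = s := by
    rw [hS, Finset.card_image_of_injective _ Nat.cast_injective, Finset.card_range]
  refine ⟨Fintype.piFinset fun _ => S, ?_, ?_⟩
  · rw [Fintype.card_piFinset_const, hcard]
  · intro e D hD f hf hv
    by_contra hf0
    have h1 := J7.mult_grid S (by omega) N (e + 1) f (by
      intro v hvS γ hγ
      exact hv v (Fintype.mem_piFinset.2 hvS) γ (by omega)) hf0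
    rw [hcard, mul_comm] at h1
    omega

end Pool.Agent.TH176.FB
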