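import Pool.Agent.TH176.FB.Defs

/-!
Duality between interpolation at fat points and powers of linear forms, in characteristic zero.
-/

set_option autoImplicit false

namespace Pool.Agent.TH176.FB

open MvPolynomial

namespace J6

/-- The exponents of degree at most `D`. -/
noncomputable def S (N D : ℕ) : Finset (Fin N →₀ ℕ) :=
  (Finsupp.finite_of_degree_le (σ := Fin N) D).toFinset

lemma mem_S {N D : ℕ} {γ : Fin N →₀ ℕ} : γ ∈ S N D ↔ γ.degree ≤ D := by
  simp [S]

/-- The weight `(D - |γ|)! γ!`. -/
noncomputable def w {N : ℕ} (D : ℕ) (γ : Fin N →₀ ℕ) : ℕ := (D - γ.degree).factorial * ∏ i, (γ i).factorial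

lemma w_ne {N : ℕ} (D : ℕ) (γ : Fin N →₀ ℕ) : w D γ ≠ 0 :=
  mul_ne_zero (Nat.factorial_ne_zero _)
    (Finset.prod_ne_zero_iff.2 fun _ _ => Nat.factorial_ne_zero _)

variable {K : Type} [Field K] {N : ℕ}

/-- The pairing of a polynomial of degree at most `D` with the forms of degree `D`. -/
noncomputable def B (D : ℕ) (f : MvPolynomial (Fin N) K) :
    MvPolynomial (Fin (N + 1)) K →ₗ[K] K where
  toFun G := ∑ γ ∈ S N D, (w D γ : K) * coeff γ f * coeff (Finsupp.cons (D - γ.degree) γ) G
  map_add' G H := by
    simp only [coeff_add, mul_add, Finset.sum_add_distrib]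
  map_smul' c G := by
    simp only [coeff_smul, smul_eq_mul, RingHom.id_apply, Finset.mul_sum]
    refine Finset.sum_congr rfl fun γ _ => ?_
    ring

lemma B_apply (D : ℕ) (f : MvPolynomial (Fin N) K) (G : MvPolynomial (Fin (N + 1)) K) :
    B D f G = ∑ γ ∈ S N D, (w D γ : K) * coeff γ f * coeff (Finsupp.cons (D - γ.degree) γ) G :=
  rfl

/-- Coefficients of the powers of `lin p`. -/
lemma lin_coeff (p : Fin N → K) (a m : ℕ) (β : Fin N →₀ ℕ) (h : a + β.degree = m) :
    ((a.factorial * ∏ i, (β i).factorial : ℕ) : K) * coeff (Finsupp.cons a β) (lin p ^ m) =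
      (m.factorial : K) * ∏ i, p i ^ β i := by
  classical
  set F : Fin (N + 1) → MvPolynomial (Fin (N + 1)) K :=
    Fin.cons (X 0) (fun i => C (p i) * X i.succ) with hF
  have h1 : lin p = ∑ j, F j := by
    rw [Fin.sum_univ_succ, hF]
    simp [lin]
  have h2 : ∀ k : Fin (N + 1) → ℕ, ∏ j, F j ^ k j =
      monomial (Finsupp.equivFunOnFinite.symm k) (∏ i, p i ^ k i.succ) := by
    intro k
    rw [Fin.prod_univ_succ, hF]
    simp only [Fin.cons_zero, Fin.cons_succ, mul_pow, Finset.prod_mul_distrib]
    rw [← mul_one (∏ i, p i ^ k i.succ), ← C_mul_monomial, ← prod_X_pow_eq_monomial]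
    have h3 : ∏ x ∈ (Finsupp.equivFunOnFinite.symm k).support,
        (X x : MvPolynomial (Fin (N + 1)) K) ^ (Finsupp.equivFunOnFinite.symm k) x =
        ∏ x, X x ^ k x := by
      refine Finset.prod_subset (Finset.subset_univ _) fun x _ hx => ?_
      rw [Finsupp.notMem_support_iff] at hx
      rw [hx, pow_zero]
    rw [h3, Fin.prod_univ_succ, map_prod]
    simp only [map_pow]
    ring
  have h4 : coeff (Finsupp.cons a β) (lin p ^ m) =
      (Nat.multinomial Finset.univ (Finsupp.cons a β : Fin (N + 1) →₀ ℕ) : K) *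
        ∏ i, p i ^ β i := by
    rw [h1, Finset.sum_pow_eq_sum_piAntidiag, coeff_sum,
      Finset.sum_eq_single (fun j => (Finsupp.cons a β : Fin (N + 1) →₀ ℕ) j)]
    · rw [h2, ← map_natCast (C : K →+* MvPolynomial (Fin (N + 1)) K), coeff_C_mul, coeff_monomial,
        if_pos]
      · simp
      · ext j
        simp
    · intro k _ hk
      rw [h2, ← map_natCast (C : K →+* MvPolynomial (Fin (N + 1)) K), coeff_C_mul, coeff_monomial,
        if_neg, mul_zero]
      intro h5
      apply hk
      funext j
      rw [← h5]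
      simp
    · intro h5
      exfalso
      apply h5
      rw [Finset.mem_piAntidiag]
      refine ⟨?_, fun i _ => Finset.mem_univ i⟩
      rw [Fin.sum_univ_succ]
      simp only [Finsupp.cons_zero, Finsupp.cons_succ]
      rw [← h, Finsupp.degree_eq_sum]
  have h5 := Nat.multinomial_spec (Finset.univ) (Finsupp.cons a β : Fin (N + 1) →₀ ℕ)
  rw [Fin.prod_univ_succ, Fin.sum_univ_succ] at h5
  simp only [Finsupp.cons_zero, Finsupp.cons_succ] at h5
  rw [← Finsupp.degree_eq_sum, h] at h5
  rw [h4, ← mul_assoc, ← Nat.cast_mul, h5]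

/-- Taylor coefficients of a monomial. -/
lemma shift_coeff (p : Fin N → K) (γ α : Fin N →₀ ℕ) :
    coeff α (shift p (monomial γ (1 : K))) =
      ∏ i, (((γ i).choose (α i) : K) * p i ^ (γ i - α i)) := by
  classical
  have h1 : shift p (monomial γ (1 : K)) = ∏ i, (X i + C (p i)) ^ γ i := by
    unfold shift
    rw [aeval_monomial, map_one, one_mul, Finsupp.prod_fintype _ _ (fun i => pow_zero _)]
  have h2 : ∀ i, (X i + C (p i) : MvPolynomial (Fin N) K) ^ γ i =
      ∑ k ∈ Finset.range (γ i + 1), monomial (Finsupp.single i k)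
        (((γ i).choose k : K) * p i ^ (γ i - k)) := by
    intro i
    rw [add_pow]
    refine Finset.sum_congr rfl fun k _ => ?_
    rw [X_pow_eq_monomial, ← C_pow, ← map_natCast (C : K →+* MvPolynomial (Fin N) K), mul_assoc,
      ← C_mul, mul_comm (monomial _ _), C_mul_monomial, mul_one, mul_comm]
  rw [h1]
  simp_rw [h2]
  rw [Finset.prod_univ_sum, coeff_sum]
  have h3 : ∀ k : Fin N → ℕ, ∏ i, monomial (Finsupp.single i (k i))
      (((γ i).choose (k i) : K) * p i ^ (γ i - k i)) =
      monomial (Finsupp.equivFunOnFinite.symm k)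
        (∏ i, (((γ i).choose (k i) : K) * p i ^ (γ i - k i))) := by
    intro k
    have h4 : (Finsupp.equivFunOnFinite.symm k) = ∑ i, Finsupp.single i (k i) := by
      ext j
      simp [Finsupp.single_apply]
    rw [h4, monomial_sum_index, map_prod, ← Finset.prod_mul_distrib]
    refine Finset.prod_congr rfl fun i _ => ?_
    rw [C_mul_monomial, mul_one]
  by_cases hα : α ≤ γ
  · rw [Finset.sum_eq_single (fun i => α i)]
    · rw [h3, coeff_monomial, if_pos]
      ext j
      simp
    · intro k _ hk
      rw [h3, coeff_monomial, if_neg]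
      intro h5
      apply hk
      funext j
      rw [← h5]
      simp
    · intro h5
      exfalso
      apply h5
      rw [Fintype.mem_piFinset]
      intro i
      rw [Finset.mem_range]
      exact Nat.lt_succ_of_le (hα i)
  · rw [Finset.sum_eq_zero]
    · have h5 : ∃ i, γ i < α i := by
        by_contra hc
        push Not at hc
        exact hα hc
      obtain ⟨i, hi⟩ := h5
      rw [Finset.prod_eq_zero (Finset.mem_univ i)]
      rw [Nat.choose_eq_zero_of_lt hi]
      simp
    · intro k hk
      rw [h3, coeff_monomial, if_neg]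
      intro h5
      apply hα
      intro i
      rw [← h5]
      rw [Fintype.mem_piFinset] at hk
      have := hk i
      rw [Finset.mem_range] at this
      simpa using Nat.le_of_lt_succ this

/-- The key identity for monomials. -/
lemma key_mono (D : ℕ) (p : Fin N → K) (γ α : Fin N →₀ ℕ) (hγ : γ.degree ≤ D) :
    (w D γ : K) * coeff (Finsupp.cons (D - γ.degree) γ) (T D p α) =
      (w D α : K) * coeff α (shift p (monomial γ (1 : K))) := by
  rw [shift_coeff]
  unfold T
  rw [coeff_mul_monomial']
  by_cases hα : α ≤ γ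
  · have h1 : (Finsupp.cons 0 α : Fin (N + 1) →₀ ℕ) ≤ Finsupp.cons (D - γ.degree) γ := by
      intro j
      refine Fin.cases ?_ (fun i => ?_) j
      · simp
      · simpa using hα i
    have h2 : (Finsupp.cons (D - γ.degree) γ - Finsupp.cons 0 α : Fin (N + 1) →₀ ℕ) =
        Finsupp.cons (D - γ.degree) (γ - α) := by
      ext j
      refine Fin.cases ?_ (fun i => ?_) j
      · simp
      · simp
    have h3 : (γ - α).degree + α.degree = γ.degree := by
      rw [← map_add, tsub_add_cancel_of_le hα]
    have h4 := lin_coeff p (D - γ.degree) (D - α.degree) (γ - α) (by omega)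
    rw [if_pos h1, h2, mul_one]
    have h5 : w D γ = (∏ i, ((γ i).choose (α i) * (α i).factorial)) *
        ((D - γ.degree).factorial * ∏ i, ((γ - α) i).factorial) := by
      unfold w
      rw [mul_left_comm, ← Finset.prod_mul_distrib]
      congr 1
      refine Finset.prod_congr rfl fun i _ => ?_
      rw [Finsupp.tsub_apply, Nat.choose_mul_factorial_mul_factorial (hα i)]
    rw [h5, Nat.cast_mul, mul_assoc, h4]
    unfold w
    push_cast
    rw [Finset.prod_mul_distrib, Finset.prod_mul_distrib]
    simp only [Pi.sub_apply]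
    ring
  · have h5 : ∃ i, γ i < α i := by
      by_contra hc
      push Not at hc
      exact hα hc
    obtain ⟨i, hi⟩ := h5
    have h1 : ¬ (Finsupp.cons 0 α : Fin (N + 1) →₀ ℕ) ≤ Finsupp.cons (D - γ.degree) γ := by
      intro h
      have := h i.succ
      simp only [Finsupp.cons_succ] at this
      omega
    rw [if_neg h1, mul_zero, Finset.prod_eq_zero (Finset.mem_univ i), mul_zero]
    rw [Nat.choose_eq_zero_of_lt hi]
    simp

lemma supp_S {D : ℕ} {f : MvPolynomial (Fin N) K} (hf : f.totalDegree ≤ D) :
    f.support ⊆ S N D := by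
  intro γ hγ
  rw [mem_S]
  have := le_totalDegree hγ
  refine le_trans ?_ (this.trans hf)
  rw [Finsupp.degree]
  exact le_of_eq rfl

/-- The key identity. -/
lemma key (D : ℕ) (p : Fin N → K) (α : Fin N →₀ ℕ) (f : MvPolynomial (Fin N) K)
    (hf : f.totalDegree ≤ D) :
    B D f (T D p α) = (w D α : K) * coeff α (shift p f) := by
  have h1 : f = ∑ γ ∈ S N D, C (coeff γ f) * monomial γ (1 : K) := by
    conv_lhs => rw [f.as_sum]
    rw [Finset.sum_subset (supp_S hf)]
    · refine Finset.sum_congr rfl fun γ _ => ?_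
      rw [C_mul_monomial, mul_one]
    · intro γ _ hγ
      rw [notMem_support_iff.1 hγ, monomial_zero]
  have h2 : shift p f = ∑ γ ∈ S N D, C (coeff γ f) * shift p (monomial γ (1 : K)) := by
    conv_lhs => rw [h1]
    rw [map_sum]
    refine Finset.sum_congr rfl fun γ _ => ?_
    rw [map_mul]
    congr 1
    unfold shift
    rw [algHom_C]
    rfl
  rw [B_apply, h2, coeff_sum, Finset.mul_sum]
  refine Finset.sum_congr rfl fun γ hγ => ?_
  rw [coeff_C_mul, mul_left_comm, ← key_mono D p γ α (mem_S.1 hγ)]
  ring

lemma T_hom (D : ℕ) (p : Fin N → K) (α : Fin N →₀ ℕ) (h : α.degree ≤ D) :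
    (T D p α).IsHomogeneous D := by
  have h1 : (lin p).IsHomogeneous 1 := by
    unfold lin
    refine (isHomogeneous_X _ _).add (IsHomogeneous.sum _ _ _ fun i _ => ?_)
    have := (isHomogeneous_C (Fin (N + 1)) (p i)).mul (isHomogeneous_X K i.succ)
    simpa using this
  have h2 : (monomial (Finsupp.cons 0 α) (1 : K)).IsHomogeneous α.degree := by
    refine isHomogeneous_monomial _ ?_
    rw [Finsupp.degree_eq_sum, Finsupp.degree_eq_sum, Fin.sum_univ_succ]
    simp
  have h3 := (h1.pow (D - α.degree)).mul h2
  unfold T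
  convert h3 using 1
  omega

end J6

open J6

theorem li_of_interp {K : Type} [Field K] [CharZero K] {N : ℕ} (Z : Finset (Fin N → K))
    (e D : ℕ) (he : e ≤ D) (h : Interp Z e D) :
    LinearIndependent K (fun q : Z × {α : Fin N →₀ ℕ // α.degree ≤ e} =>
      T D (q.1 : Fin N → K) q.2.1) := by
  classical
  rw [linearIndependent_iff']
  intro s g hg q hq
  obtain ⟨f, hf, hfc⟩ := h (fun p α => if p = (q.1 : Fin N → K) ∧ α = q.2.1 then 1 else 0)
  have h1 := congrArg (B D f) hg
  rw [map_sum, map_zero, Finset.sum_eq_single q] at h1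
  · rw [map_smul, key D _ _ f hf, hfc _ q.1.2 _ q.2.2, if_pos ⟨rfl, rfl⟩, mul_one,
      smul_eq_mul] at h1
    rcases mul_eq_zero.1 h1 with h2 | h2
    · exact h2
    · exact absurd h2 (Nat.cast_ne_zero.2 (w_ne _ _))
  · intro r _ hr
    rw [map_smul, key D _ _ f hf, hfc _ r.1.2 _ r.2.2, if_neg, mul_zero, smul_zero]
    rintro ⟨h2, h3⟩
    exact hr (Prod.ext (Subtype.ext h2) (Subtype.ext h3))
  · intro h2
    exact absurd hq h2

theorem span_of_vanish {K : Type} [Field K] [CharZero K] {N : ℕ} (Z : Finset (Fin N → K))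
    (e D : ℕ) (he : e ≤ D) (h : Vanish Z e D) :
    Submodule.span K (Set.range fun q : Z × {α : Fin N →₀ ℕ // α.degree ≤ e} =>
      T D (q.1 : Fin N → K) q.2.1) = homogeneousSubmodule (Fin (N + 1)) K D := by
  classical
  refine le_antisymm ?_ ?_
  · rw [Submodule.span_le]
    rintro _ ⟨q, rfl⟩
    exact T_hom D _ _ (q.2.2.trans he)
  · intro G hG
    by_contra hn
    obtain ⟨φ, hφ1, hφ2⟩ := Submodule.exists_dual_map_eq_bot_of_notMem hn inferInstance
    set f : MvPolynomial (Fin N) K := ∑ γ ∈ S N D,
      monomial γ (φ (monomial (Finsupp.cons (D - γ.degree) γ) 1) / (w D γ : K)) with hf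
    have hc : ∀ γ ∈ S N D, (w D γ : K) * coeff γ f =
        φ (monomial (Finsupp.cons (D - γ.degree) γ) 1) := by
      intro γ hγ
      rw [hf, coeff_sum, Finset.sum_eq_single γ]
      · rw [coeff_monomial, if_pos rfl]
        exact mul_div_cancel₀ _ (Nat.cast_ne_zero.2 (w_ne _ _))
      · intro γ' _ hne
        rw [coeff_monomial, if_neg hne]
      · intro h1
        exact absurd hγ h1
    have hdeg : f.totalDegree ≤ D := by
      rw [hf]
      refine totalDegree_finsetSum_le fun γ hγ => ?_
      refine (totalDegree_monomial_le _ _).trans ?_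
      exact mem_S.1 hγ
    -- `B D f` is `φ` on the forms of degree `D`
    have hB : ∀ H : MvPolynomial (Fin (N + 1)) K, H.IsHomogeneous D → B D f H = φ H := by
      intro H hH
      have h1 : H = ∑ γ ∈ S N D, monomial (Finsupp.cons (D - γ.degree) γ)
          (coeff (Finsupp.cons (D - γ.degree) γ) H) := by
        ext δ
        rw [coeff_sum]
        by_cases hδ : δ.degree = D
        · have h2 : δ.tail.degree + δ 0 = D := by
            rw [← hδ, Finsupp.degree_eq_sum, Finsupp.degree_eq_sum, Fin.sum_univ_succ, add_comm]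
            rfl
          have h3 : Finsupp.cons (D - δ.tail.degree) δ.tail = δ := by
            rw [show D - δ.tail.degree = δ 0 by omega, Finsupp.cons_tail]
          rw [Finset.sum_eq_single δ.tail]
          · rw [h3, coeff_monomial, if_pos rfl]
          · intro γ _ hne
            rw [coeff_monomial, if_neg]
            intro h4
            apply hne
            rw [← h4, Finsupp.tail_cons]
          · intro h4
            exact absurd (mem_S.2 (by omega)) h4
        · have h2 : coeff δ H = 0 := by
            by_contra h3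
            have h5 := hH h3
            apply hδ
            rw [Finsupp.degree_eq_weight_one]
            exact h5
          rw [h2]
          symm
          refine Finset.sum_eq_zero fun γ hγ => ?_
          rw [coeff_monomial, if_neg]
          intro h4
          apply hδ
          rw [← h4, Finsupp.degree_eq_sum, Fin.sum_univ_succ]
          simp only [Finsupp.cons_zero, Finsupp.cons_succ]
          rw [← Finsupp.degree_eq_sum]
          have := mem_S.1 hγ
          omega
      conv_rhs => rw [h1]
      rw [B_apply, map_sum]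
      refine Finset.sum_congr rfl fun γ hγ => ?_
      rw [hc γ hγ, mul_comm, ← smul_eq_mul, ← map_smul, smul_monomial, smul_eq_mul, mul_one]
    have hf0 : f = 0 := by
      refine h f hdeg fun p hp α hα => ?_
      have h1 := key D p α f hdeg
      have h2 : φ (T D p α) = 0 := by
        have h3 : T D p α ∈ Submodule.span K (Set.range
            fun q : Z × {α : Fin N →₀ ℕ // α.degree ≤ e} => T D (q.1 : Fin N → K) q.2.1) :=
          Submodule.subset_span ⟨(⟨p, hp⟩, ⟨α, hα⟩), rfl⟩
        have h4 : φ (T D p α) ∈ Submodule.map φ (Submodule.span K (Set.range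
            fun q : Z × {α : Fin N →₀ ℕ // α.degree ≤ e} => T D (q.1 : Fin N → K) q.2.1)) :=
          Submodule.mem_map_of_mem h3
        rw [hφ2] at h4
        exact (Submodule.mem_bot K).1 h4
      rw [hB _ (T_hom D p α (hα.trans he)), h2] at h1
      rcases mul_eq_zero.1 h1.symm with h3 | h3
      · exact absurd h3 (Nat.cast_ne_zero.2 (w_ne _ _))
      · exact h3
    apply hφ1
    rw [← hB G hG, hf0]
    rw [B_apply]
    simp

end Pool.Agent.TH176.FB
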