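import Pool.Agent.TH176.FB.Base
import Pool.Agent.TH176.FB.J6

/-!
Duality between the ideals generated by powers of linear forms and the forms vanishing at fat points
(Emsalem and Iarrobino), in characteristic zero.
-/

set_option autoImplicit false

namespace Pool.Agent.TH176.FB

open MvPolynomial Finset Pool.Agent.TH206.Fro

namespace J9

variable {K : Type} [Field K] {n : ℕ}

/-- The product of the factorials. -/
def pf (γ : Fin n →₀ ℕ) : ℕ := ∏ i, (γ i).factorial

lemma pf_ne (γ : Fin n →₀ ℕ) : pf γ ≠ 0 :=
  Finset.prod_ne_zero_iff.2 fun _ _ => Nat.factorial_ne_zero _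

/-- The pairing of two forms of degree `D`. -/
noncomputable def B (K : Type) [Field K] (n D : ℕ) :
    LinearMap.BilinForm K (MvPolynomial (Fin n) K) :=
  LinearMap.mk₂ K (fun F G => ∑ γ ∈ Mon n D, (pf γ : K) * coeff γ F * coeff γ G)
    (fun F F' G => by
      rw [← Finset.sum_add_distrib]
      refine Finset.sum_congr rfl fun γ _ => ?_
      rw [coeff_add]
      ring)
    (fun c F G => by
      rw [smul_eq_mul, Finset.mul_sum]
      refine Finset.sum_congr rfl fun γ _ => ?_
      rw [coeff_smul, smul_eq_mul]
      ring)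
    (fun F G G' => by
      rw [← Finset.sum_add_distrib]
      refine Finset.sum_congr rfl fun γ _ => ?_
      rw [coeff_add]
      ring)
    (fun c F G => by
      rw [smul_eq_mul, Finset.mul_sum]
      refine Finset.sum_congr rfl fun γ _ => ?_
      rw [coeff_smul, smul_eq_mul]
      ring)

lemma B_apply (D : ℕ) (F G : MvPolynomial (Fin n) K) :
    B K n D F G = ∑ γ ∈ Mon n D, (pf γ : K) * coeff γ F * coeff γ G := rfl

lemma B_symm (D : ℕ) (F G : MvPolynomial (Fin n) K) : B K n D F G = B K n D G F := by
  rw [B_apply, B_apply]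
  refine Finset.sum_congr rfl fun γ _ => ?_
  ring

/-- Coefficients of the powers of a linear form. -/
lemma lf_coeff (p : Fin n → K) (m : ℕ) (β : Fin n →₀ ℕ) (h : β.degree = m) :
    (pf β : K) * coeff β (lf p ^ m) = (m.factorial : K) * ∏ i, p i ^ β i := by
  classical
  have h2 : ∀ k : Fin n → ℕ, ∏ j, (C (p j) * X j : MvPolynomial (Fin n) K) ^ k j =
      monomial (Finsupp.equivFunOnFinite.symm k) (∏ i, p i ^ k i) := by
    intro k
    rw [← mul_one (∏ i, p i ^ k i), ← C_mul_monomial, ← prod_X_pow_eq_monomial]
    have h3 : ∏ x ∈ (Finsupp.equivFunOnFinite.symm k).support,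
        (X x : MvPolynomial (Fin n) K) ^ (Finsupp.equivFunOnFinite.symm k) x =
        ∏ x, X x ^ k x := by
      refine Finset.prod_subset (Finset.subset_univ _) fun x _ hx => ?_
      rw [Finsupp.notMem_support_iff] at hx
      rw [hx, pow_zero]
    rw [h3, map_prod, ← Finset.prod_mul_distrib]
    refine Finset.prod_congr rfl fun i _ => ?_
    rw [mul_pow, map_pow]
  have h4 : coeff β (lf p ^ m) =
      (Nat.multinomial Finset.univ β : K) * ∏ i, p i ^ β i := by
    unfold lf
    rw [Finset.sum_pow_eq_sum_piAntidiag, coeff_sum, Finset.sum_eq_single (fun j => β j)]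
    · rw [h2, ← map_natCast (C : K →+* MvPolynomial (Fin n) K), coeff_C_mul, coeff_monomial,
        if_pos]
      ext j
      simp
    · intro k _ hk
      rw [h2, ← map_natCast (C : K →+* MvPolynomial (Fin n) K), coeff_C_mul, coeff_monomial,
        if_neg, mul_zero]
      intro h5
      apply hk
      funext j
      rw [← h5]
      simp
    · intro h5
      exfalso
      apply h5
      rw [Finset.mem_piAntidiag]
      refine ⟨?_, fun i _ => Finset.mem_univ i⟩
      rw [← h, Finsupp.degree_eq_sum]
  have h5 := Nat.multinomial_spec (Finset.univ) β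
  rw [← Finsupp.degree_eq_sum, h] at h5
  rw [h4, ← mul_assoc, ← Nat.cast_mul, ← h5]
  rfl

/-- The key identity for monomials. -/
lemma key_mono (D : ℕ) (p : Fin n → K) (γ α : Fin n →₀ ℕ) (hγ : γ.degree = D) :
    (pf γ : K) * coeff γ (lf p ^ (D - α.degree) * monomial α (1 : K)) =
      ((D - α.degree).factorial : K) * (pf α : K) * coeff α (shift p (monomial γ (1 : K))) := by
  rw [J6.shift_coeff, coeff_mul_monomial']
  by_cases hα : α ≤ γ
  · have h3 : (γ - α).degree + α.degree = γ.degree := by
      rw [← map_add, tsub_add_cancel_of_le hα]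
    have h4 := lf_coeff p (D - α.degree) (γ - α) (by omega)
    rw [if_pos hα, mul_one]
    have h5 : pf γ = (∏ i, ((γ i).choose (α i) * (α i).factorial)) * pf (γ - α) := by
      unfold pf
      rw [← Finset.prod_mul_distrib]
      refine Finset.prod_congr rfl fun i _ => ?_
      rw [Finsupp.tsub_apply, Nat.choose_mul_factorial_mul_factorial (hα i)]
    rw [h5, Nat.cast_mul, mul_assoc, h4]
    unfold pf
    push_cast
    rw [Finset.prod_mul_distrib, Finset.prod_mul_distrib]
    simp only [Pi.sub_apply]
    ring
  · have h5 : ∃ i, γ i < α i := by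
      by_contra hc
      push Not at hc
      exact hα hc
    obtain ⟨i, hi⟩ := h5
    rw [if_neg hα, mul_zero, Finset.prod_eq_zero (Finset.mem_univ i), mul_zero]
    rw [Nat.choose_eq_zero_of_lt hi]
    simp

/-- The key identity. -/
lemma key (D : ℕ) (p : Fin n → K) (α : Fin n →₀ ℕ) (F : MvPolynomial (Fin n) K)
    (hF : F.IsHomogeneous D) :
    B K n D F (lf p ^ (D - α.degree) * monomial α (1 : K)) =
      ((D - α.degree).factorial : K) * (pf α : K) * coeff α (shift p F) := by
  have h1 : F = ∑ γ ∈ Mon n D, C (coeff γ F) * monomial γ (1 : K) := by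
    conv_lhs => rw [F.as_sum]
    rw [Finset.sum_subset (s₂ := Mon n D)]
    · refine Finset.sum_congr rfl fun γ _ => ?_
      rw [C_mul_monomial, mul_one]
    · intro γ hγ
      rw [mem_Mon']
      by_contra hne
      exact (mem_support_iff.1 hγ) (hF.coeff_eq_zero hne)
    · intro γ _ hγ
      rw [notMem_support_iff.1 hγ, monomial_zero]
  have h2 : shift p F = ∑ γ ∈ Mon n D, C (coeff γ F) * shift p (monomial γ (1 : K)) := by
    conv_lhs => rw [h1]
    rw [map_sum]
    refine Finset.sum_congr rfl fun γ _ => ?_
    rw [map_mul]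
    congr 1
    unfold shift
    rw [algHom_C]
    rfl
  rw [B_apply, h2, coeff_sum, Finset.mul_sum]
  refine Finset.sum_congr rfl fun γ hγ => ?_
  rw [coeff_C_mul, mul_left_comm, ← key_mono D p γ α (mem_Mon'.1 hγ)]
  ring

end J9

open J9

theorem emsalem_iarrobino {K : Type} [Field K] [CharZero K] {n r : ℕ} (D : ℕ) (d : Fin r → ℕ)
    (p : Fin r → Fin n → K) :
    Module.finrank K (ik (fun i => lf (p i) ^ d i) D) +
      Module.finrank K (fat D (fun i => D + 1 - d i) p) =
      Module.finrank K (homogeneousSubmodule (Fin n) K D) := by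
  classical
  set A := ik (fun i => lf (p i) ^ d i) D with hA
  set W := fat D (fun i => D + 1 - d i) p with hW
  set H := homogeneousSubmodule (Fin n) K D with hH
  have hAH : A ≤ H := inf_le_right
  have hWH : W ≤ H := fun F hF => hF.1
  have hhom : ∀ i, (lf (p i) ^ d i).IsHomogeneous (d i) := by
    intro i
    have := (lf_hom (p i)).pow (d i)
    rwa [one_mul] at this
  -- the pairing on the forms
  let Φ : LinearMap.BilinForm K H := (B K n D).restrict H
  have hΦ : ∀ F G : H, Φ F G = B K n D F G := fun F G => rfl
  have hker : LinearMap.ker Φ = ⊥ := by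
    rw [LinearMap.ker_eq_bot']
    intro F hF
    apply Subtype.ext
    ext γ
    rw [Submodule.coe_zero, coeff_zero]
    by_cases hγ : γ.degree = D
    · have h1 : Φ F ⟨monomial γ 1, (mem_homogeneousSubmodule _ _).2
          (isHomogeneous_monomial _ hγ)⟩ = 0 := by
        rw [hF]
        rfl
      rw [hΦ, B_apply, Finset.sum_eq_single γ] at h1
      · rw [coeff_monomial, if_pos rfl, mul_one] at h1
        rcases mul_eq_zero.1 h1 with h2 | h2
        · exact absurd h2 (Nat.cast_ne_zero.2 (pf_ne _))
        · exact h2
      · intro γ' _ hne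
        rw [coeff_monomial, if_neg (Ne.symm hne), mul_zero]
      · intro h2
        exact absurd (mem_Mon'.2 hγ) h2
    · exact ((mem_homogeneousSubmodule _ _).1 F.2).coeff_eq_zero hγ
  have h1 := LinearMap.BilinForm.finrank_add_finrank_orthogonal' (B := Φ) (A.comap H.subtype)
  have h2 : Φ.orthogonal (A.comap H.subtype) = W.comap H.subtype := by
    ext F
    rw [LinearMap.BilinForm.mem_orthogonal_iff, Submodule.mem_comap]
    have hF : (F : MvPolynomial (Fin n) K).IsHomogeneous D := (mem_homogeneousSubmodule _ _).1 F.2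
    constructor
    · intro h
      refine ⟨hF, fun i s hs' => ?_⟩
      have hs : s.degree < D + 1 - d i := hs'
      have e1 : lf (p i) ^ (D - s.degree) * monomial s (1 : K) ∈ A := by
        refine ⟨?_, ?_⟩
        · have e2 : lf (p i) ^ (D - s.degree) * monomial s (1 : K) =
              (lf (p i) ^ (D - s.degree - d i) * monomial s (1 : K)) * lf (p i) ^ d i := by
            have e3 : D - s.degree = (D - s.degree - d i) + d i := by omega
            conv_lhs => rw [e3, pow_add]
            ring
          rw [e2]
          exact Ideal.mul_mem_left _ _ (Ideal.subset_span ⟨i, rfl⟩)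
        · have e2 := ((lf_hom (p i)).pow (D - s.degree)).mul
            (isHomogeneous_monomial (1 : K) (rfl : s.degree = s.degree))
          have e3 : 1 * (D - s.degree) + s.degree = D := by omega
          rw [e3] at e2
          exact e2
      have e2 := h ⟨_, hAH e1⟩ e1
      have e3 : Φ ⟨_, hAH e1⟩ F = 0 := e2
      rw [hΦ, B_symm] at e3
      have e4 := key D (p i) s F hF
      rw [e3] at e4
      rcases mul_eq_zero.1 e4.symm with e5 | e5
      · rcases mul_eq_zero.1 e5 with e6 | e6
        · exact absurd e6 (Nat.cast_ne_zero.2 (Nat.factorial_ne_zero _))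
        · exact absurd e6 (Nat.cast_ne_zero.2 (pf_ne _))
      · exact e5
    · intro h G hG
      show Φ G F = 0
      rw [hΦ, B_symm]
      have hG' : (G : MvPolynomial (Fin n) K) ∈ A := hG
      rw [hA] at hG'
      unfold ik at hG'
      rw [span_inf_eq' d _ hhom] at hG'
      have e1 : Submodule.span K (Set.range fun q : Ro n D d =>
          monomial q.2.1 (1 : K) * lf (p q.1) ^ d q.1) ≤ LinearMap.ker (B K n D F) := by
        rw [Submodule.span_le]
        rintro _ ⟨q, rfl⟩
        rw [SetLike.mem_coe, LinearMap.mem_ker]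
        have e2 := q.2.2
        have e3 : d q.1 = D - q.2.1.degree := by
          have : Finsupp.degree q.2.1 + d q.1 = D := e2
          omega
        have e4 := key D (p q.1) q.2.1 F hF
        have e5 : coeff q.2.1 (shift (p q.1) (F : MvPolynomial (Fin n) K)) = 0 := by
          refine h.2 q.1 q.2.1 ?_
          have : Finsupp.degree q.2.1 + d q.1 = D := e2
          show Finsupp.degree _ < D + 1 - d q.1
          omega
        rw [e5, mul_zero, ← e3, mul_comm] at e4
        exact e4
      exact LinearMap.mem_ker.1 (e1 hG')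
  rw [h2, hker, inf_bot_eq, finrank_bot, add_zero] at h1
  rw [← (Submodule.comapSubtypeEquivOfLe hAH).finrank_eq,
    ← (Submodule.comapSubtypeEquivOfLe hWH).finrank_eq]
  exact h1

end Pool.Agent.TH176.FB
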