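import Mathlib

set_option autoImplicit false

/-! A binomial inequality (job 3772 for helper176). -/

namespace Pool.Agent.TH176.FB

namespace J22

lemma ch3 (n : ℕ) : 6 * (n + 3).choose 3 = (n + 3) * (n + 2) * (n + 1) := by
  have h := Nat.descFactorial_eq_factorial_mul_choose (n + 3) 3
  have h1 : (3 : ℕ).factorial = 6 := rfl
  rw [h1] at h
  rw [← h]
  simp only [Nat.descFactorial_succ, Nat.descFactorial_zero, mul_one]
  have e1 : n + 3 - 2 = n + 1 := by omega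
  have e2 : n + 3 - 1 = n + 2 := by omega
  rw [e1, e2, Nat.sub_zero]
  ring

lemma ch3' (n : ℕ) : 6 * (4 + n - 1).choose n = (n + 3) * (n + 2) * (n + 1) := by
  rw [← ch3 n]
  congr 1
  have e : 4 + n - 1 = n + 3 := by omega
  rw [e]
  exact Nat.choose_symm_of_eq_add rfl

end J22

open J22

theorem num206_three (t c m : ℕ) (h : c + 3 ≤ t) (hm : 1 ≤ m) (hm2 : m < (c + 3).choose 3) :
    2 * (4 + (m - 1)) * ((4 + (m - 1) - 1).choose (m - 1)) ≤
      4 * ((4 + ((t - 1) * m + c + 1) - 1).choose ((t - 1) * m + c + 1)) := by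
  obtain ⟨e, rfl⟩ : ∃ e, m = e + 1 := ⟨m - 1, by omega⟩
  obtain ⟨T, rfl⟩ : ∃ T, t = T + 1 := ⟨t - 1, by omega⟩
  simp only [Nat.add_sub_cancel]
  have h1 := ch3' e
  set d := T * (e + 1) + c + 1 with hd
  have h2 := ch3' d
  have h3 := ch3 c
  have hc : 1 ≤ c := by
    rcases Nat.eq_zero_or_pos c with rfl | hc
    · exfalso
      rw [Nat.choose_self] at hm2
      omega
    · exact hc
  have hT : 3 ≤ T := by omega
  -- `6 m ≤ (T+1) T (T-1) - 6`
  have h4 : 6 * (e + 1) + 6 ≤ (T + 1) * T * (T - 1) := by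
    have h5 : (c + 3) * (c + 2) * (c + 1) ≤ (T + 1) * T * (T - 1) :=
      Nat.mul_le_mul (Nat.mul_le_mul (by omega) (by omega)) (by omega)
    omega
  obtain ⟨S, rfl⟩ : ∃ S, T = S + 3 := ⟨T - 3, by omega⟩
  have e3 : S + 3 - 1 = S + 2 := by omega
  rw [e3] at h4
  have h6 : (e + 4) * ((e + 3) * (e + 2) * (e + 1)) ≤ 2 * ((d + 3) * (d + 2) * (d + 1)) := by
    have h7 : (S + 3) * (e + 1) ≤ d := by rw [hd]; omega
    have h8 : ((S + 3) * (e + 1)) ^ 3 ≤ (d + 3) * (d + 2) * (d + 1) := by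
      calc ((S + 3) * (e + 1)) ^ 3 = ((S + 3) * (e + 1)) * ((S + 3) * (e + 1)) *
            ((S + 3) * (e + 1)) := by ring
        _ ≤ (d + 3) * (d + 2) * (d + 1) :=
            Nat.mul_le_mul (Nat.mul_le_mul (by omega) (by omega)) (by omega)
    have h9 : e + 24 ≤ 2 * (S + 3) ^ 3 := by
      nlinarith [Nat.zero_le S, Nat.zero_le (S ^ 2), Nat.zero_le (S ^ 3)]
    have h10 : (e + 4) * (e + 3) * (e + 2) ≤ (e + 24) * (e + 1) ^ 2 := by
      nlinarith [Nat.zero_le e, Nat.zero_le (e ^ 2), Nat.zero_le (e ^ 3)]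
    calc (e + 4) * ((e + 3) * (e + 2) * (e + 1)) = ((e + 4) * (e + 3) * (e + 2)) * (e + 1) := by ring
      _ ≤ ((e + 24) * (e + 1) ^ 2) * (e + 1) := Nat.mul_le_mul_right _ h10
      _ ≤ ((2 * (S + 3) ^ 3) * (e + 1) ^ 2) * (e + 1) :=
          Nat.mul_le_mul_right _ (Nat.mul_le_mul_right _ h9)
      _ = 2 * ((S + 3) * (e + 1)) ^ 3 := by ring
      _ ≤ 2 * ((d + 3) * (d + 2) * (d + 1)) := Nat.mul_le_mul_left _ h8
  have h11 : 6 * (2 * (4 + e) * (4 + e - 1).choose e) = 2 * ((e + 4) * ((e + 3) * (e + 2) * (e + 1))) := by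
    rw [← h1]; ring
  have h12 : 6 * (4 * (4 + d - 1).choose d) = 4 * ((d + 3) * (d + 2) * (d + 1)) := by
    rw [← h2]; ring
  omega

end Pool.Agent.TH176.FB
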