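import Pool.Agent.TH176.FB.Final
import Pool.Agent.TH176.FB.J14
import Pool.Agent.TH176.FB.J17
import Pool.Agent.TH176.FB.J21
import Pool.Agent.TH176.FB.J22

/-!
The formula of Froeberg for `t ^ N` forms of equal degree in `N + 1` variables.
-/

set_option autoImplicit false

namespace Pool.Agent.TH176.FB

open MvPolynomial Finset Pool.Agent.TH206.Fro

/-- Surjectivity from a set of points without forms vanishing at it. -/
theorem top_of_vanish (N r k Δ c : ℕ) (d : Fin r → ℕ) (hΔ : Δ ≤ k) (p : Fin c → Fin N → ℝ)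
    (hp : Function.Injective p) (hc : c ≤ (Finset.univ.filter fun i => d i ≤ Δ).card)
    (hV : ∀ F : MvPolynomial (Fin N) ℝ, F.totalDegree ≤ k →
      (∀ i, ∀ a : Fin N →₀ ℕ, a.degree ≤ k - Δ → coeff a (shift (p i) F) = 0) → F = 0) :
    ∃ f0 : Fin r → MvPolynomial (Fin (N + 1)) ℝ, (∀ i, (f0 i).IsHomogeneous (d i)) ∧
      (Mon (N + 1) k).card ≤ Module.finrank ℝ (ik f0 k) := by
  classical
  obtain ⟨e, rfl⟩ : ∃ e, k = Δ + e := ⟨k - Δ, by omega⟩
  rw [Nat.add_sub_cancel_left] at hV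
  let Z : Finset (Fin N → ℝ) := Finset.univ.image p
  have hspan := span_of_vanish Z e (Δ + e) (by omega) (fun F hF h => hV F hF fun i a ha =>
    h (p i) (Finset.mem_image_of_mem _ (Finset.mem_univ i)) a ha)
  obtain ⟨j⟩ : Nonempty (Fin c ↪ {i // i ∈ Finset.univ.filter fun i => d i ≤ Δ}) :=
    Function.Embedding.nonempty_of_card_le (by
      rw [Fintype.card_coe, Fintype.card_fin]; exact hc)
  let p' : Fin r → (Fin N → ℝ) := fun i => if h : ∃ q : Fin c, (j q).1 = i then p h.choose else 0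
  have hp' : ∀ q : Fin c, p' (j q).1 = p q := by
    intro q
    have h : ∃ q' : Fin c, (j q').1 = (j q).1 := ⟨q, rfl⟩
    have h1 : p' (j q).1 = p h.choose := dif_pos h
    rw [h1]
    have h2 := h.choose_spec
    have h3 := j.injective (Subtype.ext h2)
    rw [h3]
  refine ⟨fun i => lin (p' i) ^ d i, fun i => ?_, ?_⟩
  · have h := (lin_hom (p' i)).pow (d i)
    rwa [one_mul] at h
  have hle : homogeneousSubmodule (Fin (N + 1)) ℝ (Δ + e) ≤
      ik (fun i => lin (p' i) ^ d i) (Δ + e) := by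
    rw [← hspan, Submodule.span_le]
    rintro _ ⟨⟨⟨z, hz⟩, α⟩, rfl⟩
    obtain ⟨q, _, rfl⟩ := Finset.mem_image.1 hz
    have h1 := T_mem (Δ + e) d p' (j q).1 α.1 (by
      have h2 := α.2
      have h3 : d (j q).1 ≤ Δ := (Finset.mem_filter.1 (j q).2).2
      omega)
    rw [hp' q] at h1
    exact h1
  have : FiniteDimensional ℝ (ik (fun i => lin (p' i) ^ d i) (Δ + e)) :=
    Submodule.finiteDimensional_of_le (inf_le_right : _ ≤ homogeneousSubmodule _ ℝ (Δ + e))
  rw [← dim_thm (N + 1) (Δ + e) ℝ]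
  exact Submodule.finrank_mono hle

/-- The value predicted by Froeberg is zero above a degree `k' < 2 δ` in which the quotient is
zero. -/
theorem fro_zero (K : Type) [Field K] (n r δ : ℕ) (d : Fin r → ℕ) (hn : 1 ≤ n)
    (hd : ∀ i, δ ≤ d i) (f : Fin r → MvPolynomial (Fin n) K)
    (hf : ∀ i, (f i).IsHomogeneous (d i)) (k' : ℕ) (hk' : k' < 2 * δ)
    (h : homogeneousSubmodule (Fin n) K k' ≤ ik f k') (k : ℕ) (hk : k' ≤ k) : fro n d k = 0 := by
  have h5 : co n d k' ≤ 0 := by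
    rw [co_thm n r k' d hn (fun i => by have := hd i; omega) k' le_rfl]
    have h7 := finrank_ik_le K n r k' d f hf
    have h8 : ik f k' = homogeneousSubmodule (Fin n) K k' := le_antisymm inf_le_right h
    rw [h8, dim_thm n k' K, le_min_iff] at h7
    have h9 := h7.1
    rw [card_Ro] at h9
    have h10 : (((Mon n k').card : ℕ) : ℤ) ≤
        ((∑ i, (if d i ≤ k' then (Mon n (k' - d i)).card else 0) : ℕ) : ℤ) := by
      exact_mod_cast h9
    push_cast at h10
    linarith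
  unfold fro
  rw [if_neg]
  push Not
  exact ⟨k', hk, h5⟩

/-- The numerical conditions for the number `c` (`n + 2` variables). -/
def NumC (n t c : ℕ) : Prop :=
  ∃ M0 i₁ q : ℕ, 1 ≤ q ∧ i₁ + c / t ≤ q ∧ n ≤ t ^ (n + 1) ∧
    (∀ i, i₁ ≤ i → Hc n t (t * i + c) + n * q ≤ t ^ (n + 1) * i) ∧
    (∀ m, M0 ≤ m → ∀ b, m < b + i₁ → t * b ≤ t * m + c →
      (Hc n t (t * m + c - t * b) : ℤ) ≤ (n : ℤ) * ((m : ℤ) + 1 - b - q) + b +
        (((t ^ (n + 1) : ℕ) : ℤ) - n) * ((m - b : ℕ) : ℤ)) ∧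
    (∀ m, 1 ≤ m → m < M0 → 2 * ((n + 2) + (m - 1)) * (((n + 2) + (m - 1) - 1).choose (m - 1)) ≤
      (n + 2) * (((n + 2) + ((t - 1) * m + c + 1) - 1).choose ((t - 1) * m + c + 1)))

/-- The case of a single degree smaller than `2 δ`. -/
theorem each (K : Type) [Field K] [CharZero K] (n t δ k : ℕ) (ht : 2 ≤ t) (hδ : 1 ≤ δ)
    (hnum : ∀ c : ℕ, 2 * c + n + 2 < n * t → NumC n t c) (hk : k < 2 * δ) :
    ∃ P : MvPolynomial (Io (n + 2) fun _ : Fin (t ^ (n + 1)) => δ) K, P ≠ 0 ∧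
      ∀ f : Fin (t ^ (n + 1)) → MvPolynomial (Fin (n + 2)) K, (∀ i, (f i).IsHomogeneous δ) →
        MvPolynomial.eval (fun s : Io (n + 2) fun _ : Fin (t ^ (n + 1)) => δ =>
          (f s.1).coeff s.2.1) P ≠ 0 →
        hilb f k = fro (n + 2) (fun _ : Fin (t ^ (n + 1)) => δ) k := by
  classical
  have hmin : ∀ f : Fin (t ^ (n + 1)) → MvPolynomial (Fin (n + 2)) K,
      (∀ i, (f i).IsHomogeneous δ) →
      min (Fintype.card (Ro (n + 2) k fun _ : Fin (t ^ (n + 1)) => δ)) (Mon (n + 2) k).card ≤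
        Module.finrank K (ik f k) → hilb f k = fro (n + 2) (fun _ : Fin (t ^ (n + 1)) => δ) k :=
    fun f hf h => hilb_eq K (n + 2) _ k _ (by omega) (fun _ => hk) f hf h
  rcases lt_or_ge k δ with hkδ | hkδ
  · refine ⟨1, one_ne_zero, fun f hf _ => hmin f hf ?_⟩
    refine (min_le_left _ _).trans ?_
    rw [card_Ro, Finset.sum_eq_zero]
    · exact Nat.zero_le _
    · intro i _
      rw [if_neg (by omega)]
  by_cases hA : (t - 1) * (2 * k + (n + 1) + 1) ≤ 2 * t * δ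
  · obtain ⟨f0, hf0, hc⟩ := lemA (n + 1) (t ^ (n + 1)) δ k t (fun _ => δ) (by omega) ht hδ
      (fun _ => le_rfl) le_rfl hA
    obtain ⟨P, hP, hP2⟩ := spec' K ℂ (n + 2) (t ^ (n + 1)) k (fun _ => δ) f0 hf0
    exact ⟨P, hP, fun f hf hfP => hmin f hf ((min_le_left _ _).trans (hc.trans (hP2 f hf hfP)))⟩
  by_cases hB : t * (δ - 1) < (t - 1) * k
  · obtain ⟨f0, hf0, hc⟩ := lemB K (n + 1) (t ^ (n + 1)) k t δ (fun _ => δ) ht (by
      rw [Finset.filter_true_of_mem fun i _ => le_rfl, Finset.card_univ, Fintype.card_fin]) hB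
    obtain ⟨P, hP, hP2⟩ := spec K (n + 2) (t ^ (n + 1)) k (fun _ => δ) f0 hf0
    exact ⟨P, hP, fun f hf hfP => hmin f hf ((min_le_right _ _).trans (hc.trans (hP2 f hf hfP)))⟩
  -- the window
  obtain ⟨m, hm⟩ : ∃ m, k + 1 = δ + m := ⟨k + 1 - δ, by omega⟩
  obtain ⟨u, rfl⟩ : ∃ u, t = u + 1 := ⟨t - 1, by omega⟩
  simp only [Nat.add_sub_cancel] at hA hB
  push Not at hA hB
  have hm1 : 1 ≤ m := by omega
  obtain ⟨v, hv⟩ : ∃ v, δ = v + 1 := ⟨δ - 1, by omega⟩
  have hkv : k = v + m := by omega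
  have hB' : u * m ≤ v := by
    rw [hv, Nat.add_sub_cancel, hkv] at hB
    nlinarith
  obtain ⟨c, hc⟩ : ∃ c, v = u * m + c := ⟨v - u * m, by omega⟩
  have hkc : k = (u + 1) * m + c := by rw [hkv, hc]; ring
  have hδc : δ = u * m + c + 1 := by rw [hv, hc]
  have hcn : 2 * c + n + 2 < n * (u + 1) := by
    rw [hkc, hδc] at hA
    nlinarith
  obtain ⟨M0, i₁, q, hq1, hq, hn, hR1, hR2, h206⟩ := hnum c hcn
  rcases le_or_gt M0 m with hM | hM
  · -- no forms
    obtain ⟨P, hP, hP2⟩ := tmodel2 n (u + 1) m c i₁ q ((u + 1) ^ (n + 1)) (by omega) le_rfl hn hq1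
      hq hR1 (hR2 m hM)
    obtain ⟨p, hp, hp2⟩ := limit (u + 1) ((u + 1) * m + c) (m - 1) (by omega) P
      (fun G hG h => hP2 G hG fun i a ha => h i a (by omega))
    have hpinj : Function.Injective p := fun i j hij => hP (by
      have h1 := congrFun hij 0
      rw [hp, hp] at h1
      exact h1)
    obtain ⟨f0, hf0, hcard⟩ := top_of_vanish (n + 1) ((u + 1) ^ (n + 1)) k δ _ (fun _ => δ) hkδ p
      hpinj (by
        rw [Finset.filter_true_of_mem fun i _ => le_rfl, Finset.card_univ, Fintype.card_fin])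
      (fun F hF h => hp2 F (by rw [← hkc]; exact hF) fun i a ha => h i a (by omega))
    obtain ⟨P', hP', hP2'⟩ := spec' K ℝ (n + 2) ((u + 1) ^ (n + 1)) k (fun _ => δ) f0 hf0
    exact ⟨P', hP', fun f hf hfP => hmin f hf ((min_le_right _ _).trans
      (hcard.trans (hP2' f hf hfP)))⟩
  · -- small multiplicities
    obtain ⟨P, hP, hP2⟩ := final K (n + 2) ((u + 1) ^ (n + 1)) k (fun _ => δ) (by omega)
      (fun _ => hk) (fun _ _ => Or.inr (by
        have h1 := h206 m hm1 hM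
        have h2 : k - δ = m - 1 := by omega
        rw [h2, hδc]
        simpa only [Nat.add_sub_cancel] using h1))
    exact ⟨P, hP, fun f hf hfP => hP2 f hf hfP k le_rfl⟩

/-- Froeberg's formula for `t ^ (n + 1)` forms of degree `δ` in `n + 2` variables, from the
numerical conditions. -/
theorem main3 (K : Type) [Field K] [CharZero K] (n t δ : ℕ) (ht : 2 ≤ t) (hδ : 1 ≤ δ)
    (hnum : ∀ c : ℕ, 2 * c + n + 2 < n * t → NumC n t c) :
    ∃ P : MvPolynomial (Io (n + 2) fun _ : Fin (t ^ (n + 1)) => δ) K, P ≠ 0 ∧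
      ∀ f : Fin (t ^ (n + 1)) → MvPolynomial (Fin (n + 2)) K, (∀ i, (f i).IsHomogeneous δ) →
        MvPolynomial.eval (fun s : Io (n + 2) fun _ : Fin (t ^ (n + 1)) => δ =>
          (f s.1).coeff s.2.1) P ≠ 0 →
        ∀ k : ℕ, hilb f k = fro (n + 2) (fun _ : Fin (t ^ (n + 1)) => δ) k := by
  classical
  choose P hP hP2 using fun k : Fin (2 * δ) => each K n t δ k ht hδ hnum k.2
  have hB : t * (δ - 1) < (t - 1) * (2 * δ - 1) := by
    obtain ⟨u, rfl⟩ : ∃ u, t = u + 1 := ⟨t - 1, by omega⟩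
    obtain ⟨v, rfl⟩ : ∃ v, δ = v + 1 := ⟨δ - 1, by omega⟩
    have h4 : 2 * (v + 1) - 1 = 2 * v + 1 := by omega
    rw [h4]
    simp only [Nat.add_sub_cancel]
    have h5 : v ≤ u * v := Nat.le_mul_of_pos_left _ (by omega)
    nlinarith
  obtain ⟨f0, hf0, hc⟩ := lemB K (n + 1) (t ^ (n + 1)) (2 * δ - 1) t δ (fun _ => δ) ht (by
    rw [Finset.filter_true_of_mem fun i _ => le_rfl, Finset.card_univ, Fintype.card_fin]) hB
  obtain ⟨P0, hP0, hP02⟩ := spec K (n + 2) (t ^ (n + 1)) (2 * δ - 1) (fun _ => δ) f0 hf0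
  refine ⟨P0 * ∏ k, P k, mul_ne_zero hP0 (Finset.prod_ne_zero_iff.2 fun k _ => hP k),
    fun f hf hfP k => ?_⟩
  rw [map_mul, map_prod] at hfP
  have h1 := left_ne_zero_of_mul hfP
  have h2 := Finset.prod_ne_zero_iff.1 (right_ne_zero_of_mul hfP)
  rcases lt_or_ge k (2 * δ) with hk | hk
  · exact hP2 ⟨k, hk⟩ f hf (h2 _ (Finset.mem_univ _))
  · have htop := ik_top_of_card f (2 * δ - 1) (hc.trans (hP02 f hf h1))
    rw [hilb_zero_of_top f k (ik_top_mono f _ k (by omega) htop),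
      fro_zero K (n + 2) _ δ _ (by omega) (fun _ => le_rfl) f hf (2 * δ - 1) (by omega) htop k
        (by omega)]

/-- The numerical conditions for four variables. -/
theorem numC_two (t c : ℕ) (hc : 2 * c + 2 + 2 < 2 * t) : NumC 2 t c := by
  have hct : c + 3 ≤ t := by omega
  have h0 : c / t = 0 := Nat.div_eq_of_lt (by omega)
  refine ⟨(c + 3).choose 3, 1, 1, le_rfl, by omega, ?_, fun i hi => ?_, fun m hm b hb hb2 => ?_,
    fun m hm hm2 => num206_three t c m hct hm hm2⟩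
  · have : 3 ≤ t := by omega
    calc 2 ≤ t := by omega
      _ ≤ t ^ (2 + 1) := Nat.le_self_pow (by omega) t
  · obtain ⟨i, rfl⟩ : ∃ j, i = j + 1 := ⟨i - 1, by omega⟩
    have h1 := Hc_two_R1 t c hct
    have h2 := Hc_add_mul 2 t (t + c) i
    have h3 : t * (i + 1) + c = t + c + t * i := by ring
    rw [h3]
    have h4 : t ^ (2 + 1) * (i + 1) = t ^ 3 + t ^ (2 + 1) * i := by ring
    rw [h4]
    omega
  · have h1 : b = m := by
      have h2 : m ≤ b := by omega
      by_contra h3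
      have h4 : m + 1 ≤ b := by omega
      have h5 : t * (m + 1) ≤ t * b := Nat.mul_le_mul_left _ h4
      rw [Nat.mul_succ] at h5
      omega
    subst h1
    have h2 : t * b + c - t * b = c := by omega
    rw [h2, Nat.sub_self]
    have h3 := (Hc_two_le t c).trans hm
    have h4 : ((Hc 2 t c : ℕ) : ℤ) ≤ (b : ℤ) := by exact_mod_cast h3
    push_cast
    linarith

/-- Froeberg's formula for `t ^ 3` forms of equal degree in four variables. -/
theorem four (K : Type) [Field K] [CharZero K] (t δ : ℕ) (ht : 2 ≤ t) (hδ : 1 ≤ δ) :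
    ∃ P : MvPolynomial (Io 4 fun _ : Fin (t ^ 3) => δ) K, P ≠ 0 ∧
      ∀ f : Fin (t ^ 3) → MvPolynomial (Fin 4) K, (∀ i, (f i).IsHomogeneous δ) →
        MvPolynomial.eval (fun s : Io 4 fun _ : Fin (t ^ 3) => δ => (f s.1).coeff s.2.1) P ≠ 0 →
        ∀ k : ℕ, hilb f k = fro 4 (fun _ : Fin (t ^ 3) => δ) k :=
  main3 K 2 t δ ht hδ (numC_two t)

end Pool.Agent.TH176.FB
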