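import Mathlib
import Pool.Agent.TH176.FB.Hc

/-!
The numerical conditions for all `n`.
-/

set_option autoImplicit false

namespace Pool.Agent.TH176.FB

namespace J23

/-- Twice the Hilbert function, when all terms are positive. -/
lemma two_Hc (n t l : ℕ) (hl : n * (t - 1) ≤ l + 1) :
    2 * Hc n t l = t ^ n * (2 * (l + 1) - n * (t - 1)) := by
  have h1 : Hc n t l = ∑ d : Fin n → Fin t, (l + 1 - ∑ i, ((Fin.rev (d i) : Fin t) : ℕ)) := by
    unfold Hc
    exact (Equiv.sum_comp (Equiv.piCongrRight fun _ : Fin n => (Fin.revPerm : Equiv.Perm (Fin t)))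
      (fun d : Fin n → Fin t => (l + 1 - ∑ i, (d i : ℕ)))).symm
  have h2 : t ^ n * (2 * (l + 1) - n * (t - 1)) =
      ∑ _d : Fin n → Fin t, (2 * (l + 1) - n * (t - 1)) := by
    rw [Finset.sum_const, Finset.card_univ, Fintype.card_fun, Fintype.card_fin, Fintype.card_fin,
      smul_eq_mul]
  have h3 : 2 * Hc n t l = Hc n t l + ∑ d : Fin n → Fin t,
      (l + 1 - ∑ i, ((Fin.rev (d i) : Fin t) : ℕ)) := by
    rw [← h1]; ring
  rw [h3, h2]
  unfold Hc
  rw [← Finset.sum_add_distrib]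
  refine Finset.sum_congr rfl fun d _ => ?_
  have h4 : (∑ i, (d i : ℕ)) + ∑ i, ((Fin.rev (d i) : Fin t) : ℕ) = n * (t - 1) := by
    rw [← Finset.sum_add_distrib]
    have h5 : ∀ i ∈ (Finset.univ : Finset (Fin n)),
        ((d i : ℕ) + ((Fin.rev (d i) : Fin t) : ℕ)) = t - 1 := by
      intro i _
      rw [Fin.val_rev]
      have := (d i).isLt
      omega
    rw [Finset.sum_congr rfl h5, Finset.sum_const, Finset.card_univ, Fintype.card_fin, smul_eq_mul]
  omega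

/-- Bernoulli's inequality, homogeneous form. -/
lemma bern (T k : ℕ) : (T + 1) ^ (k + 1) ≤ T ^ (k + 1) + (k + 1) * (T + 1) ^ k := by
  induction k with
  | zero => simp
  | succ k ih =>
    have h1 : T ^ (k + 1) ≤ (T + 1) ^ (k + 1) := Nat.pow_le_pow_left (by omega) _
    calc (T + 1) ^ (k + 1 + 1) = (T + 1) * (T + 1) ^ (k + 1) := by ring
      _ ≤ (T + 1) * (T ^ (k + 1) + (k + 1) * (T + 1) ^ k) := Nat.mul_le_mul_left _ ih
      _ = T ^ (k + 1 + 1) + T ^ (k + 1) + (k + 1) * (T + 1) ^ (k + 1) := by ring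
      _ ≤ T ^ (k + 1 + 1) + (T + 1) ^ (k + 1) + (k + 1) * (T + 1) ^ (k + 1) := by omega
      _ = T ^ (k + 1 + 1) + (k + 1 + 1) * (T + 1) ^ (k + 1) := by ring

/-- The product `(m + 1) ⋯ (m + n)`. -/
def P (m n : ℕ) : ℕ := ∏ i ∈ Finset.range n, (m + 1 + i)

lemma P_succ (m n : ℕ) : P m (n + 1) = P m n * (m + 1 + n) := Finset.prod_range_succ _ _

/-- The second Bernoulli type inequality. -/
lemma bern2 (m n : ℕ) :
    (2 * (m : ℤ) - n * (n + 1)) * (P m n : ℤ) ≤ 2 * (m : ℤ) ^ (n + 1) := by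
  induction n with
  | zero => simp [P]
  | succ n ih =>
    rw [P_succ]
    push_cast
    have h0 : (0 : ℤ) ≤ (P m n : ℤ) := Int.natCast_nonneg _
    have hm : (0 : ℤ) ≤ (m : ℤ) := Int.natCast_nonneg _
    have hn : (0 : ℤ) ≤ (n : ℤ) := Int.natCast_nonneg _
    have h1 : (2 * (m : ℤ) - ((n : ℤ) + 1) * ((n : ℤ) + 1 + 1)) * ((m : ℤ) + 1 + n) ≤
        (2 * (m : ℤ) - n * (n + 1)) * m := by
      nlinarith [mul_nonneg hn hn, mul_nonneg (mul_nonneg hn hn) hn]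
    calc (2 * (m : ℤ) - ((n : ℤ) + 1) * ((n : ℤ) + 1 + 1)) * ((P m n : ℤ) * ((m : ℤ) + 1 + n))
        = ((2 * (m : ℤ) - ((n : ℤ) + 1) * ((n : ℤ) + 1 + 1)) * ((m : ℤ) + 1 + n)) * (P m n : ℤ) := by
          ring
      _ ≤ ((2 * (m : ℤ) - n * (n + 1)) * m) * (P m n : ℤ) := mul_le_mul_of_nonneg_right h1 h0
      _ = ((2 * (m : ℤ) - n * (n + 1)) * (P m n : ℤ)) * m := by ring
      _ ≤ (2 * (m : ℤ) ^ (n + 1)) * m := mul_le_mul_of_nonneg_right ih hm
      _ = 2 * (m : ℤ) ^ (n + 1 + 1) := by ring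

lemma P_le (m n : ℕ) (hm : 1 ≤ m) : P m n ≤ ((n + 1) * m) ^ n := by
  unfold P
  calc ∏ i ∈ Finset.range n, (m + 1 + i) ≤ ∏ _i ∈ Finset.range n, ((n + 1) * m) := by
        refine Finset.prod_le_prod' fun i hi => ?_
        have hi' : i < n := Finset.mem_range.mp hi
        nlinarith
    _ = ((n + 1) * m) ^ n := by rw [Finset.prod_const, Finset.card_range]

/-- The main inequality between the products. -/
lemma key (n T m : ℕ) (hm : 1 ≤ m) (hT : (n + 1) * (n + 3) ≤ T) (hn : 1 ≤ n)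
    (hM : 2 * (n + 1 + m) ≤ (n + 1) * T ^ (n + 1)) :
    2 * (n + 1 + m) * P m n ≤ (n + 2) * T ^ (n + 1) * m ^ n := by
  by_cases h : n * (n + 1) * (n + 2) ≤ 2 * m
  · have h1 := bern2 m n
    have hz : (2 * ((n : ℤ) + 1 + m) * (P m n : ℤ)) * (2 * (m : ℤ)) ≤
        (((n : ℤ) + 2) * (T : ℤ) ^ (n + 1) * (m : ℤ) ^ n) * (2 * (m : ℤ)) := by
      have h0 : (0 : ℤ) ≤ (P m n : ℤ) := Int.natCast_nonneg _
      have hT0 : (0 : ℤ) ≤ ((n : ℤ) + 2) * (T : ℤ) ^ (n + 1) := by positivity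
      have hM' : 2 * ((n : ℤ) + 1 + m) ≤ ((n : ℤ) + 1) * (T : ℤ) ^ (n + 1) := by exact_mod_cast hM
      have h' : (n : ℤ) * ((n : ℤ) + 1) * ((n : ℤ) + 2) ≤ 2 * (m : ℤ) := by exact_mod_cast h
      have hm0 : (0 : ℤ) ≤ 2 * (m : ℤ) := by positivity
      have hTp : (0 : ℤ) ≤ (T : ℤ) ^ (n + 1) := by positivity
      calc (2 * ((n : ℤ) + 1 + m) * (P m n : ℤ)) * (2 * (m : ℤ))
          = (2 * ((n : ℤ) + 1 + m)) * (2 * (m : ℤ)) * (P m n : ℤ) := by ring
        _ ≤ (((n : ℤ) + 1) * (T : ℤ) ^ (n + 1)) * (2 * (m : ℤ)) * (P m n : ℤ) := by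
            exact mul_le_mul_of_nonneg_right (mul_le_mul_of_nonneg_right hM' hm0) h0
        _ = (T : ℤ) ^ (n + 1) * (((n : ℤ) + 1) * (2 * (m : ℤ))) * (P m n : ℤ) := by ring
        _ ≤ (T : ℤ) ^ (n + 1) * (((n : ℤ) + 2) * (2 * (m : ℤ) - n * (n + 1))) * (P m n : ℤ) := by
            refine mul_le_mul_of_nonneg_right (mul_le_mul_of_nonneg_left ?_ hTp) h0
            nlinarith
        _ = ((n : ℤ) + 2) * (T : ℤ) ^ (n + 1) * ((2 * (m : ℤ) - n * (n + 1)) * (P m n : ℤ)) := by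
            ring
        _ ≤ ((n : ℤ) + 2) * (T : ℤ) ^ (n + 1) * (2 * (m : ℤ) ^ (n + 1)) :=
            mul_le_mul_of_nonneg_left h1 hT0
        _ = (((n : ℤ) + 2) * (T : ℤ) ^ (n + 1) * (m : ℤ) ^ n) * (2 * (m : ℤ)) := by ring
    have h2 : (0 : ℤ) < 2 * (m : ℤ) := by positivity
    have h3 := le_of_mul_le_mul_right hz h2
    exact_mod_cast h3
  · push Not at h
    have h1 := P_le m n hm
    have h2 : 2 * (n + 1 + m) ≤ (n + 2) * ((n + 1) * (n + 3) ^ (n + 1)) := by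
      have h3 : (n + 3) ^ 2 ≤ (n + 3) ^ (n + 1) := Nat.pow_le_pow_right (by omega) (by omega)
      have h4 : 2 * (n + 1 + m) ≤ (n + 1) * (n + 3) ^ 2 := by nlinarith
      calc 2 * (n + 1 + m) ≤ (n + 1) * (n + 3) ^ 2 := h4
        _ ≤ (n + 1) * (n + 3) ^ (n + 1) := Nat.mul_le_mul_left _ h3
        _ ≤ (n + 2) * ((n + 1) * (n + 3) ^ (n + 1)) := Nat.le_mul_of_pos_left _ (by omega)
    calc 2 * (n + 1 + m) * P m n
        ≤ ((n + 2) * ((n + 1) * (n + 3) ^ (n + 1))) * ((n + 1) * m) ^ n := Nat.mul_le_mul h2 h1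
      _ = (n + 2) * ((n + 1) * (n + 3)) ^ (n + 1) * m ^ n := by
          rw [mul_pow, mul_pow]; ring
      _ ≤ (n + 2) * T ^ (n + 1) * m ^ n := by
          exact Nat.mul_le_mul_right _ (Nat.mul_le_mul_left _ (Nat.pow_le_pow_left hT _))

/-- The inequality between the binomial coefficients. -/
lemma choose_le (n T m d : ℕ) (hm : 1 ≤ m) (hT : (n + 1) * (n + 3) ≤ T) (hn : 1 ≤ n)
    (hM : 2 * (n + 1 + m) ≤ (n + 1) * T ^ (n + 1)) (hd : T * m ≤ d + 1) :
    2 * (n + 1 + m) * (m - 1 + (n + 1)).choose (n + 1) ≤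
      (n + 2) * (d + (n + 1)).choose (n + 1) := by
  have h1 := key n T m hm hT hn hM
  have h2 : m.ascFactorial (n + 1) = m * P m n := by
    rw [Nat.ascFactorial_eq_prod_range, Finset.prod_range_succ']
    unfold P
    rw [mul_comm]
    congr 1
    refine Finset.prod_congr rfl fun i _ => ?_
    ring
  have h3 : (T * m) ^ (n + 1) ≤ (d + 1).ascFactorial (n + 1) := by
    rw [Nat.ascFactorial_eq_prod_range]
    calc (T * m) ^ (n + 1) = ∏ _i ∈ Finset.range (n + 1), (T * m) := by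
          rw [Finset.prod_const, Finset.card_range]
      _ ≤ ∏ i ∈ Finset.range (n + 1), (d + 1 + i) := by
          refine Finset.prod_le_prod' fun i _ => ?_
          omega
  have h4 : m.ascFactorial (n + 1) = (n + 1).factorial * (m - 1 + (n + 1)).choose (n + 1) := by
    have := Nat.ascFactorial_eq_factorial_mul_choose (m - 1) (n + 1)
    rw [Nat.sub_add_cancel hm] at this
    exact this
  have h5 := Nat.ascFactorial_eq_factorial_mul_choose d (n + 1)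
  have h6 : 2 * (n + 1 + m) * m.ascFactorial (n + 1) ≤ (n + 2) * (d + 1).ascFactorial (n + 1) := by
    calc 2 * (n + 1 + m) * m.ascFactorial (n + 1) = (2 * (n + 1 + m) * P m n) * m := by
          rw [h2]; ring
      _ ≤ ((n + 2) * T ^ (n + 1) * m ^ n) * m := Nat.mul_le_mul_right _ h1
      _ = (n + 2) * (T * m) ^ (n + 1) := by rw [mul_pow]; ring
      _ ≤ (n + 2) * (d + 1).ascFactorial (n + 1) := Nat.mul_le_mul_left _ h3
  rw [h4, h5] at h6
  have h7 : (n + 1).factorial * (2 * (n + 1 + m) * (m - 1 + (n + 1)).choose (n + 1)) ≤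
      (n + 1).factorial * ((n + 2) * (d + (n + 1)).choose (n + 1)) := by
    calc (n + 1).factorial * (2 * (n + 1 + m) * (m - 1 + (n + 1)).choose (n + 1))
        = 2 * (n + 1 + m) * ((n + 1).factorial * (m - 1 + (n + 1)).choose (n + 1)) := by ring
      _ ≤ _ := h6
      _ = _ := by ring
  exact Nat.le_of_mul_le_mul_left h7 (Nat.factorial_pos _)

/-- The bound for `M0`. -/
lemma bound (n T c m : ℕ) (hn : 2 ≤ n) (hT : (n + 2) ^ 2 ≤ T + 1)
    (hc : 2 * c + n + 2 < n * (T + 1)) (hm : m < (T + 1) ^ n * (c + 1) + 4 * n ^ 2) :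
    2 * (n + 1 + m) ≤ (n + 1) * T ^ (n + 1) := by
  have h1 := bern T n
  have h2 : (T + 1) ^ n * (2 * c + n + 3) ≤ (T + 1) ^ n * (n * (T + 1)) :=
    Nat.mul_le_mul_left _ (by omega)
  have h3 : (T + 1) ≤ (T + 1) ^ n := Nat.le_self_pow (by omega) _
  have h4 : (n + 2) ^ 2 * (T + 1) ^ n ≤ (T + 1) * (T + 1) ^ n := Nat.mul_le_mul_right _ hT
  have h5 : (3 * n + 4) * (n + 2) ^ 2 ≤ (3 * n + 4) * (T + 1) ^ n :=
    Nat.mul_le_mul_left _ (hT.trans h3)
  have h6 : (n + 1) * (T + 1) ^ (n + 1) ≤ (n + 1) * (T ^ (n + 1) + (n + 1) * (T + 1) ^ n) :=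
    Nat.mul_le_mul_left _ h1
  have h7 : (T + 1) ^ (n + 1) = (T + 1) * (T + 1) ^ n := by ring
  rw [h7] at h6
  generalize (T + 1) ^ n = X at *
  generalize T ^ (n + 1) = Y at *
  nlinarith [mul_nonneg (Nat.zero_le n) (Nat.zero_le n)]

end J23

open J23 in
theorem numN (n t c : ℕ) (hn : 2 ≤ n) (ht : (n + 2) ^ 2 ≤ t) (hc : 2 * c + n + 2 < n * t) :
    ∃ M0 i₁ q : ℕ, 1 ≤ q ∧ i₁ + c / t ≤ q ∧ n ≤ t ^ (n + 1) ∧
      (∀ i, i₁ ≤ i → Hc n t (t * i + c) + n * q ≤ t ^ (n + 1) * i) ∧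
      (∀ m, M0 ≤ m → ∀ b, m < b + i₁ → t * b ≤ t * m + c →
        (Hc n t (t * m + c - t * b) : ℤ) ≤ (n : ℤ) * ((m : ℤ) + 1 - b - q) + b +
          (((t ^ (n + 1) : ℕ) : ℤ) - n) * ((m - b : ℕ) : ℤ)) ∧
      (∀ m, 1 ≤ m → m < M0 → 2 * ((n + 2) + (m - 1)) * (((n + 2) + (m - 1) - 1).choose (m - 1)) ≤
        (n + 2) * (((n + 2) + ((t - 1) * m + c + 1) - 1).choose ((t - 1) * m + c + 1))) := by
  obtain ⟨T, rfl⟩ : ∃ T, t = T + 1 := ⟨t - 1, by
    have : 0 < (n + 2) ^ 2 := by positivity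
    omega⟩
  have hTp : (T + 1) ≤ (T + 1) ^ n := Nat.le_self_pow (by omega) _
  have hTn : (n + 2) ^ 2 ≤ (T + 1) ^ n := ht.trans hTp
  -- `c / t ≤ n / 2`
  have hct : 2 * (c / (T + 1)) ≤ n := by
    have h1 : (T + 1) * (c / (T + 1)) ≤ c := Nat.mul_div_le _ _
    by_contra h
    push Not at h
    have h2 : (T + 1) * (n + 1) ≤ (T + 1) * (2 * (c / (T + 1))) := Nat.mul_le_mul_left _ h
    nlinarith
  refine ⟨(T + 1) ^ n * (c + 1) + 4 * n ^ 2, n, 2 * n, by omega, by omega, ?_, ?_, ?_, ?_⟩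
  · have h1 : n ≤ (n + 2) ^ 2 := by nlinarith
    have h2 : (T + 1) ^ n ≤ (T + 1) ^ (n + 1) := Nat.pow_le_pow_right (by omega) (by omega)
    omega
  · intro i hi
    obtain ⟨j, rfl⟩ := Nat.exists_eq_add_of_le hi
    have h1 := Hc_add_mul n (T + 1) ((T + 1) * n + c) j
    have h2 : (T + 1) * (n + j) + c = (T + 1) * n + c + (T + 1) * j := by ring
    rw [h2]
    have h3 := two_Hc n (T + 1) ((T + 1) * n + c) (by
      rw [Nat.add_sub_cancel]; nlinarith)
    rw [Nat.add_sub_cancel] at h3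
    -- `2 Hc + t^n ≤ 2 n t^(n+1)`
    have h4 : (T + 1) ^ n * (2 * ((T + 1) * n + c + 1) - n * T) + (T + 1) ^ n ≤
        (T + 1) ^ n * (2 * (n * (T + 1))) := by
      have h5 : 2 * ((T + 1) * n + c + 1) - n * T + 1 ≤ 2 * (n * (T + 1)) := by
        have h6 : (T + 1) * n = n * T + n := by ring
        have h7 : n * (T + 1) = n * T + n := by ring
        rw [h7] at hc
        rw [h6, h7]
        omega
      calc (T + 1) ^ n * (2 * ((T + 1) * n + c + 1) - n * T) + (T + 1) ^ n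
          = (T + 1) ^ n * (2 * ((T + 1) * n + c + 1) - n * T + 1) := by ring
        _ ≤ _ := Nat.mul_le_mul_left _ h5
    have h8 : (T + 1) ^ (n + 1) * (n + j) = (T + 1) ^ n * (n * (T + 1)) + (T + 1) ^ (n + 1) * j := by
      ring
    have h9 : (T + 1) ^ n * (2 * (n * (T + 1))) = 2 * ((T + 1) ^ n * (n * (T + 1))) := by ring
    have h10 : 4 * (n * n) ≤ (T + 1) ^ n := by
      -- `t^n ≥ t^2 ≥ (n+2)^4`
      have h11 : (T + 1) ^ 2 ≤ (T + 1) ^ n := Nat.pow_le_pow_right (by omega) hn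
      have h12 : ((n + 2) ^ 2) ^ 2 ≤ (T + 1) ^ 2 := Nat.pow_le_pow_left ht 2
      have h13 : 4 * (n * n) ≤ ((n + 2) ^ 2) ^ 2 := by
        have : (2 * n) ^ 2 ≤ ((n + 2) ^ 2) ^ 2 := Nat.pow_le_pow_left (by nlinarith) 2
        nlinarith
      omega
    have h14 : n * (2 * n) = 2 * (n * n) := by ring
    rw [h8, h14]
    omega
  · intro m hm b hb hbm
    have hbn : (Hc n (T + 1) c) ≤ (T + 1) ^ n * (c + 1) := Hc_le n (T + 1) c
    rcases le_or_gt b m with h | h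
    · obtain ⟨i, rfl⟩ := Nat.exists_eq_add_of_le h
      have h1 : (T + 1) * (b + i) + c - (T + 1) * b = c + (T + 1) * i := by
        have : (T + 1) * (b + i) = (T + 1) * b + (T + 1) * i := by ring
        omega
      have h2 : b + i - b = i := by omega
      rw [h1, h2]
      have h3 := Hc_add_mul n (T + 1) c i
      have h4 : (Hc n (T + 1) (c + (T + 1) * i) : ℤ) ≤ (Hc n (T + 1) c : ℤ) +
          (((T + 1) ^ (n + 1) : ℕ) : ℤ) * (i : ℤ) := by exact_mod_cast h3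
      have h5 : ((Hc n (T + 1) c : ℕ) : ℤ) ≤ (((T + 1) ^ n * (c + 1) : ℕ) : ℤ) := by exact_mod_cast hbn
      have h6 : ((((T + 1) ^ n * (c + 1) : ℕ) : ℤ)) + 4 * (n : ℤ) ^ 2 ≤ (b : ℤ) + i := by
        exact_mod_cast hm
      have h7 : (i : ℤ) < n := by
        have : i < n := by omega
        exact_mod_cast this
      push_cast at h4 h5 h6 ⊢
      generalize (((T : ℤ) + 1) ^ (n + 1)) = X at *
      generalize (((T : ℤ) + 1) ^ n * ((c : ℤ) + 1)) = Y at *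
      have hn' : (2 : ℤ) ≤ n := by exact_mod_cast hn
      nlinarith
    · obtain ⟨i, rfl⟩ := Nat.exists_eq_add_of_lt h
      have h2 : m - (m + i + 1) = 0 := by omega
      rw [h2]
      have h3 : Hc n (T + 1) ((T + 1) * m + c - (T + 1) * (m + i + 1)) ≤ Hc n (T + 1) c :=
        Hc_mono n (T + 1) (by
          have : (T + 1) * (m + i + 1) = (T + 1) * m + (T + 1) * (i + 1) := by ring
          omega)
      have h4 : (Hc n (T + 1) ((T + 1) * m + c - (T + 1) * (m + i + 1)) : ℤ) ≤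
          (Hc n (T + 1) c : ℤ) := by exact_mod_cast h3
      have h5 : ((Hc n (T + 1) c : ℕ) : ℤ) ≤ (((T + 1) ^ n * (c + 1) : ℕ) : ℤ) := by exact_mod_cast hbn
      have h6 : ((((T + 1) ^ n * (c + 1) : ℕ) : ℤ)) + 4 * (n : ℤ) ^ 2 ≤ (m : ℤ) := by
        exact_mod_cast hm
      have h7 : (T + 1) * (i + 1) ≤ c := by
        have : (T + 1) * (m + i + 1) = (T + 1) * m + (T + 1) * (i + 1) := by ring
        omega
      have h8 : i + 1 ≤ c / (T + 1) := by
        rw [Nat.le_div_iff_mul_le (by omega)]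
        nlinarith
      have h9 : 2 * ((i : ℤ) + 1) ≤ n := by
        have : 2 * (i + 1) ≤ n := by omega
        exact_mod_cast this
      have hn' : (2 : ℤ) ≤ n := by exact_mod_cast hn
      have hi0 : (0 : ℤ) ≤ i := by positivity
      push_cast at h4 h5 h6 ⊢
      generalize (((T : ℤ) + 1) ^ n * ((c : ℤ) + 1)) = Y at *
      generalize (Hc n (T + 1) ((T + 1) * m + c - (T + 1) * (m + i + 1)) : ℤ) = Z at *
      nlinarith
  · intro m hm1 hm2
    have h1 := bound n T c m hn ht hc hm2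
    have hT : (n + 1) * (n + 3) ≤ T := by nlinarith
    have h2 := choose_le n T m ((T + 1 - 1) * m + c + 1) hm1 hT (by omega) h1 (by
      rw [Nat.add_sub_cancel]; omega)
    have h3 : (n + 2) + (m - 1) = n + 1 + m := by omega
    have h4 : n + 1 + m - 1 = (m - 1) + (n + 1) := by omega
    have h5 : (n + 2) + ((T + 1 - 1) * m + c + 1) - 1 = ((T + 1 - 1) * m + c + 1) + (n + 1) := by
      omega
    rw [h3, h4, h5]
    have h6 : ((m - 1) + (n + 1)).choose (m - 1) = ((m - 1) + (n + 1)).choose (n + 1) :=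
      Nat.choose_symm_add
    have h7 : (((T + 1 - 1) * m + c + 1) + (n + 1)).choose ((T + 1 - 1) * m + c + 1) =
        (((T + 1 - 1) * m + c + 1) + (n + 1)).choose (n + 1) := Nat.choose_symm_add
    rw [h6, h7]
    exact h2

end Pool.Agent.TH176.FB
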