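import Pool.Agent.TH176.FB.Final2
import Pool.Agent.TH176.FB.J23

/-!
The formula of Froeberg for `t ^ (n + 1)` forms of equal degree in `n + 2` variables, `t` large.
-/

set_option autoImplicit false

namespace Pool.Agent.TH176.FB

open MvPolynomial Finset Pool.Agent.TH206.Fro

theorem allN (K : Type) [Field K] [CharZero K] (n t δ : ℕ) (hn : 2 ≤ n) (ht : (n + 2) ^ 2 ≤ t)
    (hδ : 1 ≤ δ) :
    ∃ P : MvPolynomial (Io (n + 2) fun _ : Fin (t ^ (n + 1)) => δ) K, P ≠ 0 ∧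
      ∀ f : Fin (t ^ (n + 1)) → MvPolynomial (Fin (n + 2)) K, (∀ i, (f i).IsHomogeneous δ) →
        MvPolynomial.eval (fun s : Io (n + 2) fun _ : Fin (t ^ (n + 1)) => δ =>
          (f s.1).coeff s.2.1) P ≠ 0 →
        ∀ k : ℕ, hilb f k = fro (n + 2) (fun _ : Fin (t ^ (n + 1)) => δ) k :=
  main3 K n t δ (by nlinarith) hδ (fun c hc => numN n t c hn ht hc)

end Pool.Agent.TH176.FB
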